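import Pool.Agent.Lib.MP_06b9d2_tl2.An.W0

/-!
Module TL2-A-Str: homogeneous polynomials in `A`, `Y` are forms, and every form is one.
-/

namespace Pool.Agent.Lib.MP_06b9d2_tl2.An

open UpperHalfPlane hiding I
open Complex ModularForm PowerSeries Filter
open scoped Real MatrixGroups Manifold Topology
open Pool.Agent.Lib.MP_06b9d2_tls (V U)
open Pool.Agent.Lib.MP_06b9d2_tls.An (pt Pz Vz coe_pt pt_pt pt_one_zero)

private theorem aeval_mono (u v : ℂ) (d : Fin 2 →₀ ℕ) (c : ℂ) :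
    MvPolynomial.aeval ![u, v] (MvPolynomial.monomial d c) = c * (u ^ d 0 * v ^ d 1) := by
  rw [MvPolynomial.aeval_monomial, Finsupp.prod_fintype _ _ (fun i => pow_zero _), Fin.prod_univ_two]
  simp

private theorem ev_mono (d : Fin 2 →₀ ℕ) (c : ℂ) :
    ev (MvPolynomial.monomial d c) = c • (Af ^ d 0 * Yf ^ d 1) := by
  funext τ
  rw [ev, aeval_mono]
  simp

private theorem ev_sum (P : MvPolynomial (Fin 2) ℂ) :
    ev P = ∑ d ∈ P.support, ev (MvPolynomial.monomial d (P.coeff d)) := by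
  funext τ
  rw [Finset.sum_apply]
  simp only [ev]
  rw [← map_sum, MvPolynomial.support_sum_monomial_coeff]

private theorem deg_eq {w : ℕ} {P : MvPolynomial (Fin 2) ℂ} (hP : P.IsHomogeneous w) {d : Fin 2 →₀ ℕ}
    (hd : d ∈ P.support) : d 0 + d 1 = w := by
  have h := hP (MvPolynomial.mem_support_iff.1 hd)
  rw [Finsupp.weight_apply, Finsupp.sum_fintype _ _ (fun i => by simp), Fin.sum_univ_two] at h
  simpa using h

private theorem mono_slash (d : Fin 2 →₀ ℕ) (c : ℂ) (w : ℕ) (hw : d 0 + d 1 = w) (g : SL(2, ℤ)) :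
    ev (MvPolynomial.monomial d c) ∣[2 * (w : ℤ)] g =
      c • ((Af ∣[(2 : ℤ)] g) ^ d 0 * (Yf ∣[(2 : ℤ)] g) ^ d 1) := by
  have h : 2 * (w : ℤ) = (d 0 : ℤ) * 2 + (d 1 : ℤ) * 2 := by
    rw [← hw]
    push_cast
    ring
  rw [ev_mono, SL_smul_slash, h, mul_slash_SL2, pow_slash, pow_slash]

/-- the action of `SL(2, ℤ)` on polynomials: substitution -/
theorem ev_slash (w : ℕ) (P : MvPolynomial (Fin 2) ℂ) (hP : P.IsHomogeneous w) (g : SL(2, ℤ)) :
    ev P ∣[2 * (w : ℤ)] g = fun τ => MvPolynomial.aeval ![(Af ∣[(2 : ℤ)] g) τ, (Yf ∣[(2 : ℤ)] g) τ] P := by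
  rw [ev_sum, SlashAction.sum_slash]
  funext τ
  rw [Finset.sum_apply]
  conv_rhs => rw [← MvPolynomial.support_sum_monomial_coeff P, map_sum]
  refine Finset.sum_congr rfl fun d hd => ?_
  rw [mono_slash d _ w (deg_eq hP hd) g, aeval_mono]
  simp

/-- homogeneous polynomials in `A`, `Y` -/
theorem mf_ev (w : ℕ) (P : MvPolynomial (Fin 2) ℂ) (hP : P.IsHomogeneous w) : MF (2 * (w : ℤ)) (ev P) := by
  intro g
  obtain ⟨F, hF⟩ := mf_A g
  obtain ⟨G, hG⟩ := mf_Y g
  rw [ev_slash w P hP g]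
  have h := Ser.aeval (f := ![Af ∣[(2 : ℤ)] g, Yf ∣[(2 : ℤ)] g]) (F := ![F, G]) (by
    intro i
    fin_cases i
    · exact hF
    · exact hG) P
  refine ⟨MvPolynomial.aeval ![F, G] P, ?_⟩
  convert h using 2 with τ
  congr 2
  funext i
  fin_cases i <;> rfl

theorem str (w : ℕ) {f : ℍ → ℂ} (hf : MF (2 * (w : ℤ)) f) :
    ∃ P : MvPolynomial (Fin 2) ℂ, P.IsHomogeneous w ∧ f = ev P := by
  induction w generalizing f with
  | zero =>
    have hf' : MF 0 f := by simpa using hf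
    obtain ⟨c, rfl⟩ := mf_zero hf'
    refine ⟨MvPolynomial.C c, MvPolynomial.isHomogeneous_C _ _, ?_⟩
    funext τ
    unfold ev
    rw [MvPolynomial.aeval_C]
    rfl
  | succ w ih =>
    obtain ⟨F, hF⟩ := hf.ser
    have hcast : 2 * ((w + 1 : ℕ) : ℤ) = 2 * (w : ℤ) + 2 := by push_cast; ring
    have hX : MF (2 * (w : ℤ) + 2) (Xf ^ (w + 1)) := by
      have h1 := mf_X.pow (w + 1)
      have h2 : ((w + 1 : ℕ) : ℤ) * 2 = 2 * (w : ℤ) + 2 := by push_cast; ring
      rwa [h2] at h1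
    rw [hcast] at hf
    have hh : MF (2 * (w : ℤ) + 2) (f + (-(constantCoeff F)) • Xf ^ (w + 1)) := hf.add (hX.smul _)
    have hS : Ser (f + (-(constantCoeff F)) • Xf ^ (w + 1))
        (F + (-(constantCoeff F)) • (PowerSeries.map (Int.castRingHom ℂ) Xz) ^ (w + 1)) :=
      hF.add ((ser_X.pow (w + 1)).smul _)
    have h0 : constantCoeff (F + (-(constantCoeff F)) •
        (PowerSeries.map (Int.castRingHom ℂ) Xz) ^ (w + 1)) = 0 := by
      rw [map_add, const_smul, map_pow, const_Xz]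
      ring
    obtain ⟨P, hP, hPe⟩ := ih (mf_div (even_two_mul _) hh hS h0)
    refine ⟨MvPolynomial.C (constantCoeff F) * (MvPolynomial.X 0 - MvPolynomial.X 1) ^ (w + 1)
      + P * MvPolynomial.X 1, ?_, ?_⟩
    · apply MvPolynomial.IsHomogeneous.add
      · have h1 := (MvPolynomial.isHomogeneous_C (Fin 2) (constantCoeff F)).mul
          (((MvPolynomial.isHomogeneous_X ℂ (0 : Fin 2)).sub
            (MvPolynomial.isHomogeneous_X ℂ (1 : Fin 2))).pow (w + 1))
        rwa [zero_add, one_mul] at h1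
      · exact hP.mul (MvPolynomial.isHomogeneous_X ℂ (1 : Fin 2))
    · funext τ
      have h1 : (f τ + -(constantCoeff F) * Xf τ ^ (w + 1)) / Yf τ = ev P τ := congrFun hPe τ
      rw [div_eq_iff (Yf_ne τ)] at h1
      have h2 : ev P τ = MvPolynomial.aeval ![Af τ, Yf τ] P := rfl
      have h3 : Xf τ = Af τ - Yf τ := by
        unfold Af
        ring
      show f τ = MvPolynomial.aeval ![Af τ, Yf τ] (MvPolynomial.C (constantCoeff F) *
        (MvPolynomial.X 0 - MvPolynomial.X 1) ^ (w + 1) + P * MvPolynomial.X 1)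
      rw [map_add, map_mul, map_mul, map_pow, map_sub, MvPolynomial.aeval_C, MvPolynomial.aeval_X,
        MvPolynomial.aeval_X, ← h2]
      show f τ = constantCoeff F * (Af τ - Yf τ) ^ (w + 1) + ev P τ * Yf τ
      rw [← h1, h3]
      ring

end Pool.Agent.Lib.MP_06b9d2_tl2.An
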