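import Pool.Agent.Lib.MP_06b9d2_tl2.An.Th2
import Pool.Agent.Lib.MP_06b9d2_tl2.An.Str

/-!
Module TL2-A-Bb: the fields `b1`, `b2` of `Core`.
-/

namespace Pool.Agent.Lib.MP_06b9d2_tl2.An

open UpperHalfPlane hiding I
open Complex ModularForm PowerSeries Filter
open scoped Real MatrixGroups Manifold Topology
open Pool.Agent.Lib.MP_06b9d2_tls (V U)
open Pool.Agent.Lib.MP_06b9d2_tls.An (pt Pz Vz coe_pt pt_pt pt_one_zero)

/-- a homogeneous polynomial in two variables -/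
theorem Bb_hom2 {w : ℕ} {P : MvPolynomial (Fin 2) ℂ} (hP : P.IsHomogeneous w) :
    ∃ c : ℕ → ℂ, ∀ F : Fin 2 → ℂ⟦X⟧, MvPolynomial.aeval F P =
      ∑ i ∈ Finset.range (w + 1), c i • (F 0 ^ (w - i) * F 1 ^ i) := by
  refine ⟨fun i => ∑ d ∈ P.support.filter (fun d => d 1 = i), P.coeff d, fun F => ?_⟩
  rw [MvPolynomial.aeval_def, MvPolynomial.eval₂_eq']
  have hdeg : ∀ d ∈ P.support, d 0 + d 1 = w := by
    intro d hd
    have := hP (MvPolynomial.mem_support_iff.1 hd)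
    rw [Finsupp.weight_apply] at this
    simpa [Finsupp.sum_fintype] using this
  rw [← Finset.sum_fiberwise_of_maps_to (s := P.support) (t := Finset.range (w + 1)) (g := fun d => d 1)
    (fun d hd => Finset.mem_range.2 (by have := hdeg d hd; omega))]
  refine Finset.sum_congr rfl fun i _ => ?_
  rw [Finset.sum_smul]
  refine Finset.sum_congr rfl fun d hd => ?_
  rw [Finset.mem_filter] at hd
  have h1 := hdeg d hd.1
  have h2 := hd.2
  rw [Fin.prod_univ_two, ← h2, show w - d 1 = d 0 by omega, Algebra.smul_def]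

/-- the expansion of a form of weight `2 w` is a homogeneous polynomial in `Aq`, `Yq` -/
theorem Bb_expand {w : ℕ} {f : ℍ → ℂ} {F : ℂ⟦X⟧} (hf : MF (2 * (w : ℤ)) f) (hF : Ser f F) :
    ∃ c : ℕ → ℂ, F = ∑ i ∈ Finset.range (w + 1), c i • (Aq ^ (w - i) * Yq ^ i) := by
  obtain ⟨P, hP, hfP⟩ := str w hf
  obtain ⟨c, hc⟩ := Bb_hom2 hP
  refine ⟨c, ?_⟩
  have h1 : Ser f (MvPolynomial.aeval ![Aq, Yq] P) := by
    have := Ser.aeval (f := ![Af, Yf]) (F := ![Aq, Yq]) (fun i => by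
      fin_cases i
      · exact ser_A
      · exact ser_Y) P
    rw [hfP]
    convert this using 1
    funext τ
    unfold ev
    congr 2
    funext i
    fin_cases i <;> rfl
  rw [Ser.unique hF h1, hc]
  rfl

private theorem Bb_retract {F : ℂ⟦X⟧} (hF : ∀ n, n % 2 ≠ 0 → coeff n F = 0) : V 2 (U 2 F) = F := by
  ext n
  rw [coeff_V]
  unfold U
  split_ifs with h
  · rw [PowerSeries.coeff_mk, Nat.mul_div_cancel' h]
  · rw [hF n (fun h0 => h (Nat.dvd_of_mod_eq_zero h0))]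

private theorem Bb_U (F : ℂ⟦X⟧) (n : ℕ) : coeff n (U 2 F) = coeff (2 * n) F := by
  unfold U
  rw [PowerSeries.coeff_mk]

theorem Bb_A (n : ℕ) : coeff n Aq = ((coeff n (Xz + 8 * Kz) : ℤ) : ℂ) := by
  rw [Aq, PowerSeries.coeff_map]
  simp

theorem Bb_grA (n : ℕ) (hn : n % 2 ≠ 0) : coeff n Aq = 0 := by
  rw [Bb_A, Az_gr n hn]
  simp

theorem Bb_grY (n : ℕ) (hn : n % 2 ≠ 1) : coeff n Yq = 0 := by
  rw [coeff_Yq, Kz_gr n hn]
  simp

theorem Bb_A0 : coeff 0 Aq = 1 := by rw [Bb_A, Az_zero]; simp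
theorem Bb_A1 : coeff 1 Aq = 0 := Bb_grA 1 (by norm_num)
theorem Bb_A2 : coeff 2 Aq = 24 := by rw [Bb_A, Az_two]; simp
theorem Bb_A3 : coeff 3 Aq = 0 := Bb_grA 3 (by norm_num)
theorem Bb_Y0 : coeff 0 Yq = 0 := Bb_grY 0 (by norm_num)
theorem Bb_Y1 : coeff 1 Yq = 8 := by rw [coeff_Yq, Kz_one]; simp
theorem Bb_Y2 : coeff 2 Yq = 0 := Bb_grY 2 (by norm_num)
theorem Bb_Y3 : coeff 3 Yq = 32 := by rw [coeff_Yq, Kz_three]; norm_num

/-- the form `f(τ / 2)` for a form invariant under `T` -/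
private theorem Bb_half {w : ℕ} {f : ℍ → ℂ} {F : ℂ⟦X⟧} (hf : MF (2 * (w : ℤ)) f)
    (hT : f ∣[2 * (w : ℤ)] ModularGroup.T = f) (hF : Ser f F) (hg : ∀ n, n % 2 ≠ 0 → coeff n F = 0) :
    ∃ c : ℕ → ℂ, U 2 F = ∑ i ∈ Finset.range (w + 1), c i • (Aq ^ (w - i) * Yq ^ i) := by
  have h1 := mf_half (even_two_mul _) hf hT
  have h2 : Ser f (V 2 (U 2 F)) := by rwa [Bb_retract hg]
  have h3 := h2.unscale 2 (by norm_num)
  have e3 : ((2 : ℕ) : ℝ) = 2 := by norm_num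
  rw [e3] at h3
  exact Bb_expand h1 h3

theorem b1 : Aq = V 2 (Aq + 3 * Yq) := by
  have hA : MF (2 * ((1 : ℕ) : ℤ)) Af := by simpa using mf_A
  have hT : Af ∣[2 * ((1 : ℕ) : ℤ)] ModularGroup.T = Af := by simpa using A_T
  obtain ⟨c, hc⟩ := Bb_half hA hT ser_A Bb_grA
  have hc' : U 2 Aq = c 0 • Aq + c 1 • Yq := by
    rw [hc]
    simp only [Finset.sum_range_succ, Finset.sum_range_zero]
    norm_num
  have e0 := congrArg (coeff 0) hc'
  have e1 := congrArg (coeff 1) hc'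
  have t0 : coeff (2 * 0) Aq = 1 := Bb_A0
  have t1 : coeff (2 * 1) Aq = 24 := Bb_A2
  rw [Bb_U, t0, map_add, map_smul, map_smul, Bb_A0, Bb_Y0] at e0
  rw [Bb_U, t1, map_add, map_smul, map_smul, Bb_A1, Bb_Y1] at e1
  simp only [smul_eq_mul] at e0 e1
  have k0 : c 0 = 1 := by linear_combination -e0
  have k1 : c 1 = 3 := by linear_combination (-1 / 8 : ℂ) * e1
  rw [k0, k1] at hc'
  conv_lhs => rw [← Bb_retract Bb_grA, hc']
  congr 1
  rw [one_smul, PowerSeries.smul_eq_C_mul, map_ofNat]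

theorem Bb_gr_mul {F G : ℂ⟦X⟧} {a b d : ℕ} (hF : ∀ n, n % 2 ≠ a → coeff n F = 0)
    (hG : ∀ n, n % 2 ≠ b → coeff n G = 0) (hd : (a + b) % 2 = d) :
    ∀ n, n % 2 ≠ d → coeff n (F * G) = 0 := by
  intro n hn
  rw [PowerSeries.coeff_mul]
  refine Finset.sum_eq_zero fun p hp => ?_
  have h1 : p.1 + p.2 = n := Finset.HasAntidiagonal.mem_antidiagonal.mp hp
  by_cases h2 : p.1 % 2 = a
  · by_cases h3 : p.2 % 2 = b
    · exfalso
      apply hn
      omega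
    · rw [hG _ h3, mul_zero]
  · rw [hF _ h2, zero_mul]

theorem Bb_grY2 : ∀ n, n % 2 ≠ 0 → coeff n (Yq ^ 2) = 0 := by
  rw [pow_two]
  exact Bb_gr_mul Bb_grY Bb_grY (by norm_num)

theorem Bb_grA2 : ∀ n, n % 2 ≠ 0 → coeff n (Aq ^ 2) = 0 := by
  rw [pow_two]
  exact Bb_gr_mul Bb_grA Bb_grA (by norm_num)

theorem Bb_grAY : ∀ n, n % 2 ≠ 1 → coeff n (Aq * Yq) = 0 :=
  Bb_gr_mul Bb_grA Bb_grY (by norm_num)

theorem Bb_Y20 : coeff 0 (Yq ^ 2) = 0 := by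
  rw [pow_two, PowerSeries.coeff_mul, Finset.Nat.sum_antidiagonal_eq_sum_range_succ_mk]
  simp only [Finset.sum_range_succ, Finset.sum_range_zero, Nat.reduceSub, Bb_Y0]
  norm_num

theorem Bb_Y22 : coeff 2 (Yq ^ 2) = 64 := by
  rw [pow_two, PowerSeries.coeff_mul, Finset.Nat.sum_antidiagonal_eq_sum_range_succ_mk]
  simp only [Finset.sum_range_succ, Finset.sum_range_zero, Nat.reduceSub, Bb_Y0, Bb_Y1, Bb_Y2]
  norm_num

theorem Bb_Y24 : coeff 4 (Yq ^ 2) = 512 := by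
  rw [pow_two, PowerSeries.coeff_mul, Finset.Nat.sum_antidiagonal_eq_sum_range_succ_mk]
  simp only [Finset.sum_range_succ, Finset.sum_range_zero, Nat.reduceSub, Bb_Y0, Bb_Y1, Bb_Y2, Bb_Y3,
    Bb_grY 4 (by norm_num)]
  norm_num

theorem Bb_A20 : coeff 0 (Aq ^ 2) = 1 := by
  rw [pow_two, PowerSeries.coeff_mul, Finset.Nat.sum_antidiagonal_eq_sum_range_succ_mk]
  simp only [Finset.sum_range_succ, Finset.sum_range_zero, Nat.reduceSub, Bb_A0]
  norm_num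

theorem Bb_A22 : coeff 2 (Aq ^ 2) = 48 := by
  rw [pow_two, PowerSeries.coeff_mul, Finset.Nat.sum_antidiagonal_eq_sum_range_succ_mk]
  simp only [Finset.sum_range_succ, Finset.sum_range_zero, Nat.reduceSub, Bb_A0, Bb_A1, Bb_A2]
  norm_num

theorem Bb_AY1 : coeff 1 (Aq * Yq) = 8 := by
  rw [PowerSeries.coeff_mul, Finset.Nat.sum_antidiagonal_eq_sum_range_succ_mk]
  simp only [Finset.sum_range_succ, Finset.sum_range_zero, Nat.reduceSub, Bb_A0, Bb_A1, Bb_Y0, Bb_Y1]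
  norm_num

private theorem Bb_YT : (Yf ^ 2) ∣[2 * ((2 : ℕ) : ℤ)] ModularGroup.T = Yf ^ 2 := by
  rw [slash_T1]
  have h1 := slash_T1 2 Yf
  rw [Y_T] at h1
  funext τ
  have h2 : (-1 : ℂ) * Yf τ = Yf (pt 1 1 τ) := congrFun h1 τ
  show (Yf (pt 1 1 τ)) ^ 2 = (Yf τ) ^ 2
  rw [← h2]
  ring

theorem b2 : Yq ^ 2 = 8 * V 2 (Yq * (Aq + Yq)) := by
  have hY : MF (2 * ((2 : ℕ) : ℤ)) (Yf ^ 2) := by
    have h := mf_Y.pow 2
    simpa [mul_comm] using h
  obtain ⟨c, hc⟩ := Bb_half hY Bb_YT (ser_Y.pow 2) Bb_grY2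
  have hc' : U 2 (Yq ^ 2) = c 0 • Aq ^ 2 + c 1 • (Aq * Yq) + c 2 • Yq ^ 2 := by
    rw [hc]
    simp only [Finset.sum_range_succ, Finset.sum_range_zero]
    norm_num
  have e0 := congrArg (coeff 0) hc'
  have e1 := congrArg (coeff 1) hc'
  have e2 := congrArg (coeff 2) hc'
  have t0 : coeff (2 * 0) (Yq ^ 2) = 0 := Bb_Y20
  have t1 : coeff (2 * 1) (Yq ^ 2) = 64 := Bb_Y22
  have t2 : coeff (2 * 2) (Yq ^ 2) = 512 := Bb_Y24
  rw [Bb_U, t0] at e0
  rw [Bb_U, t1] at e1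
  rw [Bb_U, t2] at e2
  simp only [map_add, map_smul, smul_eq_mul, Bb_A20, Bb_Y20, Bb_grAY 0 (by norm_num)] at e0
  simp only [map_add, map_smul, smul_eq_mul, Bb_grA2 1 (by norm_num), Bb_grY2 1 (by norm_num), Bb_AY1] at e1
  simp only [map_add, map_smul, smul_eq_mul, Bb_A22, Bb_Y22, Bb_grAY 2 (by norm_num)] at e2
  have k0 : c 0 = 0 := by linear_combination -e0
  have k1 : c 1 = 8 := by linear_combination (-1 / 8 : ℂ) * e1
  have k2 : c 2 = 8 := by linear_combination (-1 / 64 : ℂ) * e2 - (48 / 64 : ℂ) * k0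
  rw [k0, k1, k2] at hc'
  have h9 : U 2 (Yq ^ 2) = (8 : ℂ) • (Yq * (Aq + Yq)) := by
    rw [hc', zero_smul, zero_add, ← smul_add]
    congr 1
    ring
  have hV : V 2 ((8 : ℂ) • (Yq * (Aq + Yq))) = 8 * V 2 (Yq * (Aq + Yq)) := by
    ext n
    rw [show (8 : ℂ⟦X⟧) = PowerSeries.C (8 : ℂ) from (map_ofNat (PowerSeries.C (R := ℂ)) 8).symm,
      PowerSeries.coeff_C_mul, coeff_V, coeff_V]
    split_ifs
    · rw [map_smul, smul_eq_mul]
    · simp
  rw [← hV, ← h9, Bb_retract Bb_grY2]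

/-- `A = 1 + 24 A₁` -/
theorem Aint : ∃ A₁ : ℤ⟦X⟧, Xz + 8 * Kz = 1 + 24 * A₁ ∧ constantCoeff A₁ = 0 := by
  have hb : ∀ n, coeff (2 * n) (Xz + 8 * Kz) = coeff n (Xz + 8 * Kz) + 24 * coeff n Kz := by
    intro n
    have h := congrArg (coeff (2 * n)) b1
    rw [coeff_V, if_pos (dvd_mul_right 2 n), Nat.mul_div_cancel_left n (by norm_num), map_add,
      ← (map_ofNat (PowerSeries.C (R := ℂ)) 3), PowerSeries.coeff_C_mul, Bb_A, Bb_A, coeff_Yq] at h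
    have h2 : ((coeff (2 * n) (Xz + 8 * Kz) : ℤ) : ℂ) =
        ((coeff n (Xz + 8 * Kz) + 24 * coeff n Kz : ℤ) : ℂ) := by
      rw [h]
      push_cast
      ring
    exact_mod_cast h2
  have hd : ∀ n, n ≠ 0 → (24 : ℤ) ∣ coeff n (Xz + 8 * Kz) := by
    intro n
    induction n using Nat.strong_induction_on with
    | _ n ih =>
      intro hn
      rcases Nat.even_or_odd' n with ⟨m, rfl | rfl⟩
      · rw [hb]
        exact dvd_add (ih m (by omega) (by omega)) (dvd_mul_right _ _)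
      · rw [Az_gr _ (by omega)]
        exact dvd_zero _
  have hd' : ∀ n, ∃ c : ℤ, coeff n (Xz + 8 * Kz) - coeff n (1 : ℤ⟦X⟧) = 24 * c := by
    intro n
    rcases eq_or_ne n 0 with rfl | hn
    · exact ⟨0, by rw [Az_zero]; simp⟩
    · rw [coeff_one, if_neg hn, sub_zero]
      exact hd n hn
  choose c hc using hd'
  have hA : Xz + 8 * Kz = 1 + 24 * PowerSeries.mk c := by
    ext n
    rw [map_add (coeff n) 1, ← (map_ofNat (PowerSeries.C (R := ℤ)) 24), PowerSeries.coeff_C_mul, coeff_mk, ← hc]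
    ring
  refine ⟨PowerSeries.mk c, hA, ?_⟩
  have h0 := hc 0
  rw [Az_zero] at h0
  rw [← coeff_zero_eq_constantCoeff_apply, coeff_mk]
  simp at h0
  exact h0

end Pool.Agent.Lib.MP_06b9d2_tl2.An
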