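import Pool.Agent.Lib.MP_06b9d2_tl2.An.Bb
import Pool.Agent.Lib.L1.SpanC

/-!
Module TL2-A-Ef: the fields `h4`, `h6` of `Core`.
-/

namespace Pool.Agent.Lib.MP_06b9d2_tl2.An

open UpperHalfPlane hiding I
open Complex ModularForm PowerSeries Filter
open scoped Real MatrixGroups Manifold Topology
open Pool.Agent.L1
open Pool.Agent.Lib.MP_06b9d2_tls (V U)
open Pool.Agent.Lib.MP_06b9d2_tls.An (pt Pz Vz coe_pt pt_pt pt_one_zero)

private theorem xq_sq (τ : ℍ) : xq τ ^ 2 = Function.Periodic.qParam 1 (τ : ℂ) := by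
  unfold xq Function.Periodic.qParam
  rw [← Complex.exp_nat_mul]
  congr 1
  push_cast
  ring

private theorem ser_V2 {f : ℍ → ℂ} {F : ℂ⟦X⟧}
    (h : ∀ τ : ℍ, HasSum (fun n : ℕ => coeff n F * Function.Periodic.qParam 1 (τ : ℂ) ^ n) (f τ)) :
    Ser f (V 2 F) := by
  intro τ
  have hi : Function.Injective (fun n : ℕ => 2 * n) := fun a b hab => by simpa using hab
  have h1 := h τ
  refine (hi.hasSum_iff (f := fun n : ℕ => coeff n (V 2 F) * xq τ ^ n) (a := f τ) ?_).1 ?_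
  · intro x hx
    rw [coeff_V, if_neg, zero_mul]
    rintro ⟨c, rfl⟩
    exact hx ⟨c, rfl⟩
  · convert h1 using 2 with n
    simp only [Function.comp, coeff_V, dvd_mul_right, if_true, pow_mul, xq_sq]
    rw [Nat.mul_div_cancel_left _ (by norm_num : 0 < 2)]

private theorem mf_level1 {k : ℤ} (f : ModularForm 𝒮ℒ k) {F : ℂ⟦X⟧} (h : Ser f F) : MF k f := by
  intro g
  refine ⟨F, ?_⟩
  have : (f : ℍ → ℂ) ∣[k] g = f := by
    rw [ModularForm.SL_slash]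
    exact SlashInvariantForm.slash_action_eqn f _ ⟨g, rfl⟩
  rw [this]
  exact h

theorem mf_E4 : MF 4 ModularForm.E₄ ∧ Ser ModularForm.E₄ (V 2 (e4 ℂ)) := by
  have h : Ser ModularForm.E₄ (V 2 (e4 ℂ)) := by
    refine ser_V2 fun τ => ?_
    rw [e4_C]
    simpa only [smul_eq_mul] using ModularForm.hasSum_qExpansion E₄ one_pos one_mem_strictPeriods_SL τ
  exact ⟨mf_level1 _ h, h⟩

theorem mf_E6 : MF 6 ModularForm.E₆ ∧ Ser ModularForm.E₆ (V 2 (e6 ℂ)) := by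
  have h : Ser ModularForm.E₆ (V 2 (e6 ℂ)) := by
    refine ser_V2 fun τ => ?_
    rw [e6_C]
    simpa only [smul_eq_mul] using ModularForm.hasSum_qExpansion E₆ one_pos one_mem_strictPeriods_SL τ
  exact ⟨mf_level1 _ h, h⟩

/-- the first four coefficients -/
private structure S4 (f : ℂ⟦X⟧) (a0 a1 a2 a3 : ℂ) : Prop where
  c0 : coeff 0 f = a0
  c1 : coeff 1 f = a1
  c2 : coeff 2 f = a2
  c3 : coeff 3 f = a3

private theorem S4.mul {f g : ℂ⟦X⟧} {a0 a1 a2 a3 b0 b1 b2 b3 : ℂ}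
    (hf : S4 f a0 a1 a2 a3) (hg : S4 g b0 b1 b2 b3) :
    S4 (f * g) (a0 * b0) (a0 * b1 + a1 * b0) (a0 * b2 + a1 * b1 + a2 * b0)
      (a0 * b3 + a1 * b2 + a2 * b1 + a3 * b0) := by
  constructor <;>
  · rw [coeff_mul, Finset.Nat.sum_antidiagonal_eq_sum_range_succ_mk]
    simp only [Finset.sum_range_succ, Finset.sum_range_zero, zero_add, Nat.sub_zero, Nat.sub_self,
      Nat.reduceSub, hf.c0, hf.c1, hf.c2, hf.c3, hg.c0, hg.c1, hg.c2, hg.c3]

private theorem S4.cast {f : ℂ⟦X⟧} {a0 a1 a2 a3 b0 b1 b2 b3 : ℂ}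
    (hf : S4 f a0 a1 a2 a3) (h0 : a0 = b0) (h1 : a1 = b1) (h2 : a2 = b2) (h3 : a3 = b3) :
    S4 f b0 b1 b2 b3 := by
  subst h0 h1 h2 h3
  exact hf

private theorem s4_A : S4 Aq 1 0 24 0 := ⟨Bb_A0, Bb_A1, Bb_A2, Bb_A3⟩

private theorem s4_Y : S4 Yq 0 8 0 32 := ⟨Bb_Y0, Bb_Y1, Bb_Y2, Bb_Y3⟩

private theorem s4_A2 : S4 (Aq ^ 2) 1 0 48 0 := by
  rw [pow_two]
  apply (s4_A.mul s4_A).cast <;> norm_num

private theorem s4_Y2 : S4 (Yq ^ 2) 0 0 64 0 := by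
  rw [pow_two]
  apply (s4_Y.mul s4_Y).cast <;> norm_num

private theorem s4_AY : S4 (Aq * Yq) 0 8 0 224 := by
  apply (s4_A.mul s4_Y).cast <;> norm_num

private theorem s4_e4 : S4 (V 2 (e4 ℂ)) 1 0 240 0 := by
  have e : ∀ n, coeff n (e4 ℂ) = ((coeff n E4z : ℤ) : ℂ) := fun n => by
    rw [e4, coeff_map]; simp
  constructor <;> rw [coeff_V]
  · rw [if_pos (by norm_num), e, coeff_E4z]; simp
  · rw [if_neg (by norm_num)]
  · rw [if_pos (by norm_num), e, coeff_E4z]; norm_num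
  · rw [if_neg (by norm_num)]

private theorem s4_e6 : S4 (V 2 (e6 ℂ)) 1 0 (-504) 0 := by
  have e : ∀ n, coeff n (e6 ℂ) = ((coeff n E6z : ℤ) : ℂ) := fun n => by
    rw [e6, coeff_map]; simp
  constructor <;> rw [coeff_V]
  · rw [if_pos (by norm_num), e, coeff_E6z]; simp
  · rw [if_neg (by norm_num)]
  · rw [if_pos (by norm_num), e, coeff_E6z]; norm_num
  · rw [if_neg (by norm_num)]

theorem h4 : V 2 (e4 ℂ) = Aq ^ 2 + 3 * Yq ^ 2 := by
  have hm : MF (2 * ((2 : ℕ) : ℤ)) ModularForm.E₄ := by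
    have := mf_E4.1
    norm_num
    exact this
  obtain ⟨c, hc⟩ := Bb_expand hm mf_E4.2
  have hc' : V 2 (e4 ℂ) = c 0 • Aq ^ 2 + c 1 • (Aq * Yq) + c 2 • Yq ^ 2 := by
    rw [hc]
    simp only [Finset.sum_range_succ, Finset.sum_range_zero, PowerSeries.smul_eq_C_mul]
    norm_num
  have e0 := congrArg (coeff 0) hc'
  have e1 := congrArg (coeff 1) hc'
  have e2 := congrArg (coeff 2) hc'
  simp only [map_add, map_smul, smul_eq_mul, s4_e4.c0, s4_e4.c1, s4_e4.c2,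
    s4_A2.c0, s4_A2.c1, s4_A2.c2, s4_AY.c0, s4_AY.c1, s4_AY.c2,
    s4_Y2.c0, s4_Y2.c1, s4_Y2.c2] at e0 e1 e2
  have k0 : c 0 = 1 := by linear_combination -e0
  have k1 : c 1 = 0 := by linear_combination (-1 / 8 : ℂ) * e1
  have k2 : c 2 = 3 := by linear_combination (-1 / 64 : ℂ) * e2 - (48 / 64 : ℂ) * k0
  rw [hc', k0, k1, k2]
  simp only [PowerSeries.smul_eq_C_mul, map_zero, map_one, map_ofNat]
  ring

theorem h6 : V 2 (e6 ℂ) = Aq ^ 3 - 9 * Aq * Yq ^ 2 := by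
  have hm : MF (2 * ((3 : ℕ) : ℤ)) ModularForm.E₆ := by
    have := mf_E6.1
    norm_num
    exact this
  obtain ⟨c, hc⟩ := Bb_expand hm mf_E6.2
  have hc' : V 2 (e6 ℂ) = c 0 • (Aq ^ 2 * Aq) + c 1 • (Aq ^ 2 * Yq) + c 2 • (Aq * Yq ^ 2) +
      c 3 • (Yq ^ 2 * Yq) := by
    rw [hc]
    simp only [Finset.sum_range_succ, Finset.sum_range_zero, PowerSeries.smul_eq_C_mul]
    norm_num
    ring
  have t0 := s4_A2.mul s4_A
  have t1 := s4_A2.mul s4_Y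
  have t2 := s4_A.mul s4_Y2
  have t3 := s4_Y2.mul s4_Y
  have e0 := congrArg (coeff 0) hc'
  have e1 := congrArg (coeff 1) hc'
  have e2 := congrArg (coeff 2) hc'
  have e3 := congrArg (coeff 3) hc'
  simp only [map_add, map_smul, smul_eq_mul, s4_e6.c0, s4_e6.c1, s4_e6.c2, s4_e6.c3,
    t0.c0, t0.c1, t0.c2, t0.c3, t1.c0, t1.c1, t1.c2, t1.c3,
    t2.c0, t2.c1, t2.c2, t2.c3, t3.c0, t3.c1, t3.c2, t3.c3] at e0 e1 e2 e3
  have k0 : c 0 = 1 := by linear_combination -e0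
  have k1 : c 1 = 0 := by linear_combination (-1 / 8 : ℂ) * e1
  have k2 : c 2 = -9 := by linear_combination (-1 / 64 : ℂ) * e2 - (72 / 64 : ℂ) * k0
  have k3 : c 3 = 0 := by linear_combination (-1 / 512 : ℂ) * e3 - (416 / 512 : ℂ) * k1
  rw [hc', k0, k1, k2, k3]
  simp only [PowerSeries.smul_eq_C_mul, map_zero, map_one, map_ofNat, map_neg]
  ring

end Pool.Agent.Lib.MP_06b9d2_tl2.An
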