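import Pool.Agent.Lib.MP_06b9d2_tl2.An.Hk
import Pool.Agent.Lib.MP_06b9d2_tl2.An.Bb
import Pool.Agent.Lib.MP_06b9d2_tl2.An.Ef

/-!
Module TL2-A-CoreEx: the analytic package for `Γ(2)`.
-/

namespace Pool.Agent.Lib.MP_06b9d2_tl2.An

open PowerSeries

theorem core_ex : ∃ A Y : ℂ⟦X⟧, Core A Y := by
  obtain ⟨A₁, hA, hA0⟩ := Aint
  refine ⟨Aq, Yq, ⟨⟨A₁, Kz, ?_, ?_, hA0, Kz_const, Kz_one⟩, Bb_grA, Bb_grY, h4, h6, b1, b2, hk⟩⟩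
  · rw [Aq, hA]
    simp only [map_add, map_mul, map_one, map_ofNat]
  · rw [Yq]
    simp only [map_mul, map_ofNat]

end Pool.Agent.Lib.MP_06b9d2_tl2.An
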