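import Pool.Agent.Lib.MP_06b9d2_tl2.An.Defs0
import Pool.Agent.Lib.MP_06b9d2_tls.An.ADef

/-!
TL2-A (MP_06b9d2_nt), the analytic package: modular forms for `Γ(2)`. Definitions.

`x = exp (π i τ)`. A function `f` on the upper half plane has the expansion `F` (`Ser f F`) if
`f(τ) = ∑ F_n x ^ n` for all `τ`. `MF k f`: every `f ∣ g`, `g ∈ SL(2, ℤ)`, has an expansion
(this means, for even `k`: `f` is a modular form of weight `k` for `Γ(2)`).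
The point `r τ + t` is `pt r t τ` (from board TLS-A).
-/

namespace Pool.Agent.Lib.MP_06b9d2_tl2.An

open UpperHalfPlane hiding I
open Complex ModularForm PowerSeries Filter
open scoped Real MatrixGroups Manifold Topology
open Pool.Agent.Lib.MP_06b9d2_tls (V U)
open Pool.Agent.Lib.MP_06b9d2_tls.An (pt Pz Vz)

/-- the parameter `x = exp (π i τ)` -/
noncomputable def xq (τ : ℍ) : ℂ := Function.Periodic.qParam 2 (τ : ℂ)

/-- `f(τ) = ∑ F_n x ^ n` for all `τ` -/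
def Ser (f : ℍ → ℂ) (F : ℂ⟦X⟧) : Prop :=
  ∀ τ : ℍ, HasSum (fun n : ℕ => coeff n F * xq τ ^ n) (f τ)

/-- modular forms of weight `k` for `Γ(2)` (`k` even) -/
def MF (k : ℤ) (f : ℍ → ℂ) : Prop := ∀ g : SL(2, ℤ), ∃ F : ℂ⟦X⟧, Ser (f ∣[k] g) F

/-- `X = η(τ/2) ^ 8 / η(τ) ^ 4` -/
noncomputable def Xf (τ : ℍ) : ℂ :=
  ModularForm.eta ((τ : ℂ) / 2) ^ 8 / ModularForm.eta (τ : ℂ) ^ 4

/-- `Y = 8 η(2τ) ^ 8 / η(τ) ^ 4` -/
noncomputable def Yf (τ : ℍ) : ℂ :=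
  8 * ModularForm.eta (2 * (τ : ℂ)) ^ 8 / ModularForm.eta (τ : ℂ) ^ 4

/-- `A = X + Y` -/
noncomputable def Af (τ : ℍ) : ℂ := Xf τ + Yf τ

/-- `Z(τ) = X(τ + 1)` -/
noncomputable def Zf (τ : ℍ) : ℂ := Xf (pt 1 1 τ)

/-- `1 / P(x ^ 2)` -/
noncomputable def Rz : ℤ⟦X⟧ := PowerSeries.invOfUnit (Vz 2 Pz) 1

/-- the expansion of `X` -/
noncomputable def Xz : ℤ⟦X⟧ := Pz ^ 8 * Rz ^ 4

/-- an eighth of the expansion of `Y` -/
noncomputable def Kz : ℤ⟦X⟧ := PowerSeries.X * Vz 4 Pz ^ 8 * Rz ^ 4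

/-- the expansion of `A` -/
noncomputable def Aq : ℂ⟦X⟧ := PowerSeries.map (Int.castRingHom ℂ) (Xz + 8 * Kz)

/-- the expansion of `Y` -/
noncomputable def Yq : ℂ⟦X⟧ := PowerSeries.map (Int.castRingHom ℂ) (8 * Kz)

/-- `l` times the Hecke operator on functions -/
noncomputable def THf (l : ℕ) (w : ℕ) (f : ℍ → ℂ) (τ : ℍ) : ℂ :=
  ∑ b ∈ Finset.range l, f (pt (1 / l) (2 * b / l) τ) + (l : ℂ) ^ (2 * w) * f (pt l 0 τ)

/-- the normal closure of `T ^ 2` in `SL(2, ℤ)` -/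
def Nn : Subgroup SL(2, ℤ) := Subgroup.normalClosure {ModularGroup.T ^ 2}

/-- the value at `τ` of the homogeneous polynomial `P` in `A`, `Y` -/
noncomputable def ev (P : MvPolynomial (Fin 2) ℂ) (τ : ℍ) : ℂ := MvPolynomial.aeval ![Af τ, Yf τ] P

end Pool.Agent.Lib.MP_06b9d2_tl2.An
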