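import Pool.Agent.Lib.MP_06b9d2_tls.Defs

/-!
MP_06b9d2_nt, board TL2: simple spectrum of `T_l`, the 2-adic argument. Definitions.

`A`, `Y` are power series in `x = exp (π i τ)`: the expansions of the modular forms of weight two
for `Γ(2)`: `Y = 8 η(2τ) ^ 8 / η(τ) ^ 4`, `A = Y + η(τ/2) ^ 8 / η(τ) ^ 4`
(`A + Y`, `A - Y`, `2 Y` are the fourth powers of the theta constants).
-/

namespace Pool.Agent.Lib.MP_06b9d2_tl2.An

open PowerSeries Pool.Agent.L1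
open Pool.Agent.Lib.MP_06b9d2_tls (V U)

/-- the branches (weight two): `f (ζ ^ b x)`, `b < l`, and `l ^ 2 f (x ^ (l ^ 2))` -/
noncomputable def br (l : ℕ) (i : Option (Fin l)) (f : ℂ⟦X⟧) : ℂ⟦X⟧ :=
  match i with
  | none => ((l : ℂ) ^ 2) • V (l ^ 2) f
  | some b => PowerSeries.rescale (Complex.exp (2 * Real.pi * Complex.I * (b : ℕ) / l)) f

/-- the value of `A` at the cusps `∞`, `S`, `T S` if `A = F`, `Y = G` at `∞` -/
noncomputable def cA (F G : ℂ⟦X⟧) : Fin 3 → ℂ⟦X⟧ :=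
  ![F, (-(1 / 2) : ℂ) • (F + 3 * G), (-(1 / 2) : ℂ) • (F + 3 * G)]

/-- the same for `Y` -/
noncomputable def cY (F G : ℂ⟦X⟧) : Fin 3 → ℂ⟦X⟧ :=
  ![G, (-(1 / 2) : ℂ) • (F - G), (1 / 2 : ℂ) • (F - G)]

/-- the properties of the expansions of `A` and `Y` -/
structure Core (A Y : ℂ⟦X⟧) : Prop where
  int : ∃ A₁ κ : ℤ⟦X⟧, A = 1 + 24 * PowerSeries.map (Int.castRingHom ℂ) A₁ ∧
    Y = 8 * PowerSeries.map (Int.castRingHom ℂ) κ ∧ constantCoeff A₁ = 0 ∧ constantCoeff κ = 0 ∧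
    coeff 1 κ = 1
  grA : ∀ n, n % 2 ≠ 0 → coeff n A = 0
  grY : ∀ n, n % 2 ≠ 1 → coeff n Y = 0
  h4 : V 2 (e4 ℂ) = A ^ 2 + 3 * Y ^ 2
  h6 : V 2 (e6 ℂ) = A ^ 3 - 9 * A * Y ^ 2
  b1 : A = V 2 (A + 3 * Y)
  b2 : Y ^ 2 = 8 * V 2 (Y * (A + Y))
  hecke : ∀ l : ℕ, l.Prime → l ≠ 2 → ∀ (w : ℕ) (P : MvPolynomial (Fin 2) ℂ), P.IsHomogeneous w →
    ∃ P' : MvPolynomial (Fin 2) ℂ, P'.IsHomogeneous w ∧
      ∑ i : Option (Fin l), MvPolynomial.aeval ![cA (br l i A) (br l i Y),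
          cY (br l i A) (br l i Y)] P =
        MvPolynomial.aeval ![cA (V l A) (V l Y), cY (V l A) (V l Y)] P'

end Pool.Agent.Lib.MP_06b9d2_tl2.An
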