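import Pool.Agent.Lib.MP_06b9d2_tl2.An.ADef

/-!
Module TL2-A-Fml: formal properties of the expansions (level 2): parity of `κ`, small coefficients.
-/

namespace Pool.Agent.Lib.MP_06b9d2_tl2.An

open UpperHalfPlane hiding I
open Complex ModularForm PowerSeries Filter
open scoped Real MatrixGroups Manifold Topology
open Pool.Agent.Lib.MP_06b9d2_tls (V U)
open Pool.Agent.Lib.MP_06b9d2_tls.An (pt Pz Vz)

theorem V_eq_expand (n : ℕ) (hn : n ≠ 0) (f : ℂ⟦X⟧) : V n f = PowerSeries.expand n hn f := by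
  ext m
  rw [PowerSeries.coeff_expand, V, coeff_mk]

theorem coeff_V (n m : ℕ) (f : ℂ⟦X⟧) : coeff m (V n f) = if n ∣ m then coeff (m / n) f else 0 := by
  rw [V, coeff_mk]

theorem Vz_eq (n : ℕ) (hn : n ≠ 0) (f : ℤ⟦X⟧) : Vz n f = PowerSeries.expand n hn f := by
  ext m
  rw [PowerSeries.coeff_expand, Vz, coeff_mk]

theorem map_Vz (n : ℕ) (f : ℤ⟦X⟧) :
    PowerSeries.map (Int.castRingHom ℂ) (Vz n f) = V n (PowerSeries.map (Int.castRingHom ℂ) f) := by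
  ext m
  rw [coeff_map, Vz, V, coeff_mk, coeff_mk, coeff_map]
  split_ifs
  · rfl
  · exact map_zero _

theorem Pz_zero : coeff 0 Pz = 1 := by
  have h := coeff_pentagonalSeries_pentagonal ℤ 0
  have h0 : pentagonal 0 = 0 := by decide
  rw [h0] at h
  rw [Pz, h]
  simp

theorem Pz_one : coeff 1 Pz = -1 := by
  have h := coeff_pentagonalSeries_pentagonal ℤ 1
  have h0 : pentagonal 1 = 1 := by decide
  rw [h0] at h
  rw [Pz, h]
  simp

theorem Pz_two : coeff 2 Pz = -1 := by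
  have h := coeff_pentagonalSeries_pentagonal ℤ (-1)
  have h0 : pentagonal (-1) = 2 := by decide
  rw [h0] at h
  rw [Pz, h]
  simp

theorem Pz_const : constantCoeff Pz = 1 := by
  rw [← coeff_zero_eq_constantCoeff_apply, Pz_zero]

theorem V2P_const : constantCoeff (Vz 2 Pz) = 1 := by
  rw [Vz_eq 2 (by norm_num), PowerSeries.constantCoeff_expand, Pz_const]

theorem Pz_Rz : Vz 2 Pz * Rz = 1 := by
  rw [Rz, mul_invOfUnit]
  rw [V2P_const, Units.val_one]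

/-- the inverse of `Pz` -/
private noncomputable def Ri : ℤ⟦X⟧ := PowerSeries.invOfUnit Pz 1

private theorem Pz_Ri : Pz * Ri = 1 := by
  rw [Ri, mul_invOfUnit]
  rw [Pz_const, Units.val_one]

private theorem Rz_eq : Rz = PowerSeries.expand 2 (by norm_num) Ri := by
  have h1 : Vz 2 Pz * PowerSeries.expand 2 (by norm_num) Ri = 1 := by
    rw [Vz_eq 2 (by norm_num), ← map_mul, Pz_Ri, map_one]
  calc Rz = Rz * (Vz 2 Pz * PowerSeries.expand 2 (by norm_num) Ri) := by rw [h1, mul_one]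
    _ = (Vz 2 Pz * Rz) * PowerSeries.expand 2 (by norm_num) Ri := by ring
    _ = _ := by rw [Pz_Rz, one_mul]

theorem Rz_const : constantCoeff Rz = 1 := by
  have h := congrArg constantCoeff Pz_Rz
  rw [map_mul, V2P_const, one_mul, map_one] at h
  exact h

private theorem Kz_eq : Kz = PowerSeries.X * (Vz 4 Pz ^ 8 * Rz ^ 4) := by
  rw [Kz, mul_assoc]

theorem Kz_const : constantCoeff Kz = 0 := by
  rw [Kz_eq, map_mul, constantCoeff_X, zero_mul]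

private theorem V4_eq (f : ℤ⟦X⟧) : Vz 4 f =
    PowerSeries.expand 2 (by norm_num) (PowerSeries.expand 2 (by norm_num) f) := by
  rw [Vz_eq 4 (by norm_num), ← PowerSeries.expand_mul]

theorem Kz_gr (n : ℕ) (hn : n % 2 ≠ 1) : coeff n Kz = 0 := by
  rw [Kz_eq, V4_eq, Rz_eq, ← map_pow (PowerSeries.expand 2 (by norm_num)) (PowerSeries.expand 2 (by norm_num) Pz),
    ← map_pow (PowerSeries.expand 2 (by norm_num)) Ri, ← map_mul]
  rcases n with _ | n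
  · rw [coeff_zero_X_mul]
  · rw [coeff_succ_X_mul]
    apply PowerSeries.coeff_expand_of_not_dvd
    omega

/-- the first three coefficients of a product -/
private theorem cm {f g : ℤ⟦X⟧} {a b c a' b' c' : ℤ} (f0 : coeff 0 f = a) (f1 : coeff 1 f = b)
    (f2 : coeff 2 f = c) (g0 : coeff 0 g = a') (g1 : coeff 1 g = b') (g2 : coeff 2 g = c') :
    coeff 0 (f * g) = a * a' ∧ coeff 1 (f * g) = a * b' + b * a' ∧
      coeff 2 (f * g) = a * c' + b * b' + c * a' := by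
  subst f0 f1 f2 g0 g1 g2
  refine ⟨?_, ?_, ?_⟩ <;>
    (simp [coeff_mul, Finset.Nat.antidiagonal_succ]; try ring)

private theorem P8 : coeff 0 (Pz ^ 8) = 1 ∧ coeff 1 (Pz ^ 8) = -8 ∧ coeff 2 (Pz ^ 8) = 20 := by
  obtain ⟨h0, h1, h2⟩ := cm Pz_zero Pz_one Pz_two Pz_zero Pz_one Pz_two
  obtain ⟨k0, k1, k2⟩ := cm h0 h1 h2 h0 h1 h2
  obtain ⟨m0, m1, m2⟩ := cm k0 k1 k2 k0 k1 k2
  have e : Pz ^ 8 = Pz * Pz * (Pz * Pz) * (Pz * Pz * (Pz * Pz)) := by ring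
  rw [e, m0, m1, m2]
  norm_num

private theorem R0 : coeff 0 Rz = 1 := by
  rw [coeff_zero_eq_constantCoeff_apply, Rz_const]

private theorem R1 : coeff 1 Rz = 0 := by
  rw [Rz_eq]
  exact PowerSeries.coeff_expand_of_not_dvd _ _ _ (by norm_num)

private theorem V2c (n : ℕ) : coeff n (Vz 2 Pz) = if 2 ∣ n then coeff (n / 2) Pz else 0 := by
  rw [Vz, coeff_mk]

private theorem R2 : coeff 2 Rz = 1 := by
  have h := congrArg (coeff 2) Pz_Rz
  have h0 : coeff 0 (Vz 2 Pz) = 1 := by rw [V2c]; simp [Pz_zero]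
  have h1 : coeff 1 (Vz 2 Pz) = 0 := by rw [V2c]; simp
  have h2 : coeff 2 (Vz 2 Pz) = -1 := by rw [V2c]; simp [Pz_one]
  rw [(cm h0 h1 h2 R0 R1 rfl).2.2] at h
  have h3 : coeff 2 (1 : ℤ⟦X⟧) = 0 := by simp [coeff_one]
  rw [h3] at h
  linarith

private theorem R4 : coeff 0 (Rz ^ 4) = 1 ∧ coeff 1 (Rz ^ 4) = 0 ∧ coeff 2 (Rz ^ 4) = 4 := by
  obtain ⟨h0, h1, h2⟩ := cm R0 R1 R2 R0 R1 R2
  obtain ⟨k0, k1, k2⟩ := cm h0 h1 h2 h0 h1 h2
  have e : Rz ^ 4 = Rz * Rz * (Rz * Rz) := by ring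
  rw [e, k0, k1, k2]
  norm_num

theorem Xz_cf : coeff 0 Xz = 1 ∧ coeff 1 Xz = -8 ∧ coeff 2 Xz = 24 := by
  obtain ⟨h0, h1, h2⟩ := P8
  obtain ⟨k0, k1, k2⟩ := R4
  obtain ⟨m0, m1, m2⟩ := cm h0 h1 h2 k0 k1 k2
  rw [Xz, m0, m1, m2]
  norm_num

theorem Xz_const : constantCoeff Xz = 1 := by
  rw [← coeff_zero_eq_constantCoeff_apply, Xz_cf.1]

private theorem Q8 : coeff 0 (Vz 4 Pz ^ 8) = 1 ∧ coeff 1 (Vz 4 Pz ^ 8) = 0 ∧ coeff 2 (Vz 4 Pz ^ 8) = 0 := by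
  rw [Vz_eq 4 (by norm_num), ← map_pow]
  refine ⟨?_, ?_, ?_⟩
  · rw [coeff_zero_eq_constantCoeff_apply, PowerSeries.constantCoeff_expand, map_pow, Pz_const, one_pow]
  · exact PowerSeries.coeff_expand_of_not_dvd _ _ _ (by norm_num)
  · exact PowerSeries.coeff_expand_of_not_dvd _ _ _ (by norm_num)

theorem Kz_one : coeff 1 Kz = 1 := by
  rw [Kz_eq]
  have h := coeff_succ_X_mul 0 (Vz 4 Pz ^ 8 * Rz ^ 4)
  rw [zero_add] at h
  rw [h, (cm Q8.1 Q8.2.1 Q8.2.2 R4.1 R4.2.1 R4.2.2).1]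
  norm_num

theorem Kz_two : coeff 2 Kz = 0 := Kz_gr 2 (by norm_num)

theorem Kz_three : coeff 3 Kz = 4 := by
  rw [Kz_eq]
  have h : coeff 3 (PowerSeries.X * (Vz 4 Pz ^ 8 * Rz ^ 4)) = coeff 2 (Vz 4 Pz ^ 8 * Rz ^ 4) :=
    coeff_succ_X_mul 2 (Vz 4 Pz ^ 8 * Rz ^ 4)
  rw [h, (cm Q8.1 Q8.2.1 Q8.2.2 R4.1 R4.2.1 R4.2.2).2.2]
  norm_num

theorem eight_K (n : ℕ) : coeff n (8 * Kz) = 8 * coeff n Kz := by
  have h8 : (8 : ℤ⟦X⟧) = PowerSeries.C 8 := by simp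
  rw [h8, coeff_C_mul]

theorem Az_zero : coeff 0 (Xz + 8 * Kz) = 1 := by
  rw [map_add, eight_K, Xz_cf.1, coeff_zero_eq_constantCoeff_apply, Kz_const]
  norm_num

theorem Az_one : coeff 1 (Xz + 8 * Kz) = 0 := by
  rw [map_add, eight_K, Xz_cf.2.1, Kz_one]
  norm_num

theorem Az_two : coeff 2 (Xz + 8 * Kz) = 24 := by
  rw [map_add, eight_K, Xz_cf.2.2, Kz_two]
  norm_num

end Pool.Agent.Lib.MP_06b9d2_tl2.An
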