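import Pool.Agent.Lib.MP_06b9d2_tl2.An.TH
import Pool.Agent.Lib.MP_06b9d2_tl2.An.Str

/-!
Module TL2-A-Hk: the field `hecke` of `Core`.
-/

namespace Pool.Agent.Lib.MP_06b9d2_tl2.An

open UpperHalfPlane hiding I
open Complex ModularForm PowerSeries Filter
open scoped Real MatrixGroups Manifold Topology
open Pool.Agent.Lib.MP_06b9d2_tls (V U)
open Pool.Agent.Lib.MP_06b9d2_tls.An (pt Pz Vz coe_pt pt_pt pt_one_zero)

/-- scaling of the arguments of a homogeneous polynomial -/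
private theorem Hk_hom {w : ℕ} {P : MvPolynomial (Fin 2) ℂ} (hP : P.IsHomogeneous w) (c : ℂ)
    (F : Fin 2 → ℂ⟦X⟧) :
    MvPolynomial.aeval (fun i => c • F i) P = c ^ w • MvPolynomial.aeval F P := by
  rw [MvPolynomial.aeval_def, MvPolynomial.aeval_def, MvPolynomial.eval₂_eq', MvPolynomial.eval₂_eq',
    Finset.smul_sum]
  refine Finset.sum_congr rfl fun d hd => ?_
  have h0 : d 0 + d 1 = w := by
    have := hP (MvPolynomial.mem_support_iff.1 hd)
    rw [Finsupp.weight_apply] at this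
    simpa [Finsupp.sum_fintype] using this
  rw [Fin.prod_univ_two, Fin.prod_univ_two, ← h0, smul_pow, smul_pow, smul_mul_smul_comm, mul_smul_comm,
    ← pow_add]

private theorem Hk_resc (c : ℂ) (F : Fin 2 → ℂ⟦X⟧) (P : MvPolynomial (Fin 2) ℂ) :
    PowerSeries.rescale c (MvPolynomial.aeval F P) =
      MvPolynomial.aeval (fun i => PowerSeries.rescale c (F i)) P := by
  induction P using MvPolynomial.induction_on with
  | C a =>
    rw [MvPolynomial.aeval_C, MvPolynomial.aeval_C]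
    ext n
    rw [PowerSeries.coeff_rescale, PowerSeries.algebraMap_apply, PowerSeries.coeff_C]
    split_ifs with h
    · subst h; simp
    · simp
  | add p q hp hq => rw [map_add, map_add, map_add, hp, hq]
  | mul_X p i hp => rw [map_mul, map_mul, map_mul, hp, MvPolynomial.aeval_X, MvPolynomial.aeval_X]

private theorem Hk_V {n : ℕ} (hn : 0 < n) {f : Fin 2 → ℍ → ℂ} {F : Fin 2 → ℂ⟦X⟧}
    (h : ∀ i, Ser (f i) (F i)) (P : MvPolynomial (Fin 2) ℂ) :
    V n (MvPolynomial.aeval F P) = MvPolynomial.aeval (fun i => V n (F i)) P :=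
  Ser.unique ((Ser.aeval h P).scale n hn) (Ser.aeval (fun i => (h i).scale n hn) P)

private theorem Hk_comp {l : ℕ} (hl : Pe l) {w : ℕ} {P : MvPolynomial (Fin 2) ℂ}
    (hP : P.IsHomogeneous w) {f : Fin 2 → ℍ → ℂ} {F : Fin 2 → ℂ⟦X⟧} (h : ∀ i, Ser (f i) (F i)) :
    Ser (fun τ => THf l w (fun τ => MvPolynomial.aeval (fun i => f i τ) P) (pt l 0 τ))
      (∑ i : Option (Fin l), MvPolynomial.aeval (fun k => br l i (F k)) P) := by
  have h1 := th_ser (w := w) hl (Ser.aeval h P)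
  have h2 : (∑ i : Option (Fin l), MvPolynomial.aeval (fun k => br l i (F k)) P) =
      (∑ b : Fin l, PowerSeries.rescale (Complex.exp (2 * Real.pi * Complex.I * (b : ℕ) / l))
        (MvPolynomial.aeval F P) + ((l : ℂ) ^ (2 * w)) • V (l ^ 2) (MvPolynomial.aeval F P)) := by
    rw [Fintype.sum_option, add_comm]
    congr 1
    · refine Finset.sum_congr rfl fun b _ => ?_
      rw [Hk_resc]
      rfl
    · rw [Hk_V (pow_pos hl.1.pos 2) h, pow_mul, ← Hk_hom hP]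
      rfl
  rw [h2]
  exact h1

/-- `f ∣ (T ^ n S)` for `f = P(A, Y)` -/
private theorem Hk_slash {w : ℕ} {P : MvPolynomial (Fin 2) ℂ} (hP : P.IsHomogeneous w) (n : ℕ) :
    ev P ∣[2 * (w : ℤ)] (ModularGroup.T ^ n * ModularGroup.S) = fun τ => MvPolynomial.aeval
      (fun i => (![(-(1 / 2) : ℂ) • (Af + (3 : ℂ) • Yf),
        ((-1) ^ n * (-(1 / 2)) : ℂ) • (Af + (-1 : ℂ) • Yf)] : Fin 2 → ℍ → ℂ) i τ) P := by
  have hA : ∀ n : ℕ, Af ∣[(2 : ℤ)] (ModularGroup.T ^ n) = Af := by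
    intro n
    induction n with
    | zero => rw [pow_zero, SlashAction.slash_one]
    | succ n ih => rw [pow_succ, SlashAction.slash_mul, ih, A_T]
  rw [ev_slash w P hP]
  funext τ
  congr 2
  funext i
  fin_cases i
  · simp only [Fin.zero_eta, Matrix.cons_val_zero]
    rw [SlashAction.slash_mul, hA, A_S]
  · simp only [Fin.mk_one, Matrix.cons_val_one, Matrix.cons_val_fin_one]
    rw [SlashAction.slash_mul, Yf_T_pow, ModularForm.SL_smul_slash, Y_S', smul_smul]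

private theorem Hk_ser (c : ℂ) :
    ∀ i, Ser ((![(-(1 / 2) : ℂ) • (Af + (3 : ℂ) • Yf),
        (c * (-(1 / 2)) : ℂ) • (Af + (-1 : ℂ) • Yf)] : Fin 2 → ℍ → ℂ) i)
      ((![(-(1 / 2) : ℂ) • (Aq + (3 : ℂ) • Yq), (c * (-(1 / 2)) : ℂ) • (Aq + (-1 : ℂ) • Yq)] : Fin 2 → ℂ⟦X⟧) i) := by
  intro i
  fin_cases i
  · exact (ser_A.add (ser_Y.smul 3)).smul _
  · exact (ser_A.add (ser_Y.smul (-1))).smul _

private theorem Hk_ser0 : ∀ i, Ser ((![Af, Yf] : Fin 2 → ℍ → ℂ) i) ((![Aq, Yq] : Fin 2 → ℂ⟦X⟧) i) := by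
  intro i
  fin_cases i
  · exact ser_A
  · exact ser_Y

private theorem Hk_ev (P : MvPolynomial (Fin 2) ℂ) :
    ev P = fun τ => MvPolynomial.aeval (fun i => (![Af, Yf] : Fin 2 → ℍ → ℂ) i τ) P := by
  funext τ
  rw [ev]
  congr 2
  funext i
  fin_cases i <;> rfl

private theorem Hk_V_add (n : ℕ) (F G : ℂ⟦X⟧) : V n (F + G) = V n F + V n G := by
  ext m
  simp only [V, PowerSeries.coeff_mk, map_add]
  split_ifs <;> simp

private theorem Hk_V_smul (n : ℕ) (c : ℂ) (F : ℂ⟦X⟧) : V n (c • F) = c • V n F := by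
  ext m
  simp only [V, PowerSeries.coeff_mk, map_smul, smul_eq_mul]
  split_ifs <;> simp

private theorem Hk_br_add (l : ℕ) (i : Option (Fin l)) (F G : ℂ⟦X⟧) :
    br l i (F + G) = br l i F + br l i G := by
  cases i with
  | none => simp only [br, Hk_V_add, smul_add]
  | some b => simp only [br, map_add]

private theorem Hk_br_smul (l : ℕ) (i : Option (Fin l)) (c : ℂ) (F : ℂ⟦X⟧) :
    br l i (c • F) = c • br l i F := by
  cases i with
  | none => simp only [br, Hk_V_smul]; rw [smul_comm]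
  | some b =>
    simp only [br]
    ext n
    simp only [PowerSeries.coeff_rescale, map_smul, smul_eq_mul]
    ring

private theorem Hk_pi (F G : Fin 3 → ℂ⟦X⟧) (P : MvPolynomial (Fin 2) ℂ) (j : Fin 3) :
    (MvPolynomial.aeval ![F, G] P : Fin 3 → ℂ⟦X⟧) j = MvPolynomial.aeval ![F j, G j] P := by
  have h := MvPolynomial.comp_aeval_apply (R := ℂ) ![F, G] (Pi.evalAlgHom ℂ (fun _ : Fin 3 => ℂ⟦X⟧) j) P
  rw [Pi.evalAlgHom_apply] at h
  rw [h]
  congr 2
  funext i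
  fin_cases i <;> rfl

private theorem Hk_cA (F G : ℂ⟦X⟧) (j : Fin 2) :
    cA F G j.succ = (-(1 / 2) : ℂ) • (F + (3 : ℂ) • G) := by
  have h2 : (3 : ℂ) • G = 3 * G := by
    rw [PowerSeries.smul_eq_C_mul, map_ofNat]
  rw [h2]
  fin_cases j <;> rfl

private theorem Hk_cY (F G : ℂ⟦X⟧) (j : Fin 2) :
    cY F G j.succ = ((-1) ^ (j : ℕ) * (-(1 / 2)) : ℂ) • (F + (-1 : ℂ) • G) := by
  rw [neg_one_smul, ← sub_eq_add_neg]
  fin_cases j
  · show (-(1 / 2) : ℂ) • (F - G) = _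
    simp
  · show (1 / 2 : ℂ) • (F - G) = _
    simp

theorem hk (l : ℕ) (hp : l.Prime) (h2 : l ≠ 2) (w : ℕ) (P : MvPolynomial (Fin 2) ℂ)
    (hP : P.IsHomogeneous w) :
    ∃ P' : MvPolynomial (Fin 2) ℂ, P'.IsHomogeneous w ∧
      ∑ i : Option (Fin l), MvPolynomial.aeval ![cA (br l i Aq) (br l i Yq),
          cY (br l i Aq) (br l i Yq)] P =
        MvPolynomial.aeval ![cA (V l Aq) (V l Yq), cY (V l Aq) (V l Yq)] P' := by
  have hl : Pe l := ⟨hp, h2⟩
  have hl0 : 0 < l := hp.pos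
  have hf : MF (2 * (w : ℤ)) (ev P) := mf_ev w P hP
  obtain ⟨P', hP', hPP'⟩ := str w (mf_TH hl hf)
  refine ⟨P', hP', ?_⟩
  -- the expansions at the cusp `T ^ j S`
  have key : ∀ j : ℕ, (∑ i : Option (Fin l), MvPolynomial.aeval (fun k =>
        br l i ((![(-(1 / 2) : ℂ) • (Aq + (3 : ℂ) • Yq),
          ((-1) ^ j * (-(1 / 2)) : ℂ) • (Aq + (-1 : ℂ) • Yq)] : Fin 2 → ℂ⟦X⟧) k)) P) =
      V l (MvPolynomial.aeval ![(-(1 / 2) : ℂ) • (Aq + (3 : ℂ) • Yq),
          ((-1) ^ j * (-(1 / 2)) : ℂ) • (Aq + (-1 : ℂ) • Yq)] P') := by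
    intro j
    have h1 := Hk_comp hl hP (Hk_ser ((-1) ^ j))
    have h2 := (Ser.aeval (Hk_ser ((-1) ^ j)) P').scale l hl0
    refine Ser.unique (f := fun τ => (ev P' ∣[2 * (w : ℤ)] (ModularGroup.T ^ j * ModularGroup.S)) (pt l 0 τ)) ?_ ?_
    · convert h1 using 1
      rw [← hPP', th_comm hl hf, Hk_slash hP]
    · convert h2 using 1
      rw [Hk_slash hP' j]
  have key0 : (∑ i : Option (Fin l), MvPolynomial.aeval (fun k =>
        br l i ((![Aq, Yq] : Fin 2 → ℂ⟦X⟧) k)) P) = V l (MvPolynomial.aeval ![Aq, Yq] P') := by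
    have h1 := Hk_comp hl hP Hk_ser0
    have h2 := (Ser.aeval Hk_ser0 P').scale l hl0
    refine Ser.unique (f := fun τ => (ev P') (pt l 0 τ)) ?_ ?_
    · convert h1 using 1
      rw [← hPP', Hk_ev P]
    · convert h2 using 1
      rw [Hk_ev P']
  funext j
  rw [Finset.sum_apply, Hk_pi]
  simp only [Hk_pi]
  refine Fin.cases ?_ (fun j => ?_) j
  · rw [Hk_V hl0 Hk_ser0] at key0
    refine Eq.trans (Finset.sum_congr rfl fun i _ => ?_) (key0.trans ?_)
    · congr 2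
      funext k
      fin_cases k <;> rfl
    · congr 2
      funext k
      fin_cases k <;> rfl
  · have h1 := key j
    rw [Hk_V hl0 (Hk_ser _)] at h1
    refine Eq.trans (Finset.sum_congr rfl fun i _ => ?_) (h1.trans ?_)
    · congr 2
      funext k
      fin_cases k
      · show cA _ _ j.succ = br l i ((-(1 / 2) : ℂ) • (Aq + (3 : ℂ) • Yq))
        rw [Hk_cA, Hk_br_smul, Hk_br_add, Hk_br_smul]
      · show cY _ _ j.succ = br l i (((-1) ^ (j : ℕ) * (-(1 / 2)) : ℂ) • (Aq + (-1 : ℂ) • Yq))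
        rw [Hk_cY, Hk_br_smul, Hk_br_add, Hk_br_smul]
    · congr 2
      funext k
      fin_cases k
      · show V l ((-(1 / 2) : ℂ) • (Aq + (3 : ℂ) • Yq)) = cA _ _ j.succ
        rw [Hk_cA, Hk_V_smul, Hk_V_add, Hk_V_smul]
      · show V l (((-1) ^ (j : ℕ) * (-(1 / 2)) : ℂ) • (Aq + (-1 : ℂ) • Yq)) = cY _ _ j.succ
        rw [Hk_cY, Hk_V_smul, Hk_V_add, Hk_V_smul]

end Pool.Agent.Lib.MP_06b9d2_tl2.An
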