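import Pool.Agent.Lib.MP_06b9d2_tl2.An.XY
import Pool.Agent.Lib.MP_06b9d2_tl2.An.Grp

/-!
Module TL2-A-MFa: the ring of modular forms for `Γ(2)`, and the forms `X`, `Y`, `Z`.
-/

namespace Pool.Agent.Lib.MP_06b9d2_tl2.An

open UpperHalfPlane hiding I
open Complex ModularForm PowerSeries Filter
open scoped Real MatrixGroups Manifold Topology
open Pool.Agent.Lib.MP_06b9d2_tls (V U)
open Pool.Agent.Lib.MP_06b9d2_tls.An (pt Pz Vz coe_pt pt_pt pt_one_zero)

theorem slash_T (k : ℤ) (f : ℍ → ℂ) (n : ℤ) : f ∣[k] (ModularGroup.T ^ n) = fun τ => f (pt 1 n τ) := by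
  funext τ
  rw [SL_slash_apply]
  have h1 : (ModularGroup.T ^ n) • τ = pt 1 n τ := by
    apply UpperHalfPlane.ext
    rw [ModularGroup.coe_T_zpow_smul_eq, coe_pt one_pos]
    push_cast
    ring
  have h2 : denom (ModularGroup.T ^ n : SL(2, ℤ)) τ = 1 := by
    rw [ModularGroup.denom_apply, ModularGroup.coe_T_zpow]
    simp
  rw [h1, h2, one_zpow, mul_one]

theorem slash_T1 (k : ℤ) (f : ℍ → ℂ) : f ∣[k] ModularGroup.T = fun τ => f (pt 1 1 τ) := by
  have h := slash_T k f 1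
  rw [zpow_one] at h
  rw [h]
  norm_num

theorem slash_neg (k : ℤ) (f : ℍ → ℂ) (g : SL(2, ℤ)) : f ∣[k] (-g) = ((-1 : ℂ) ^ k) • (f ∣[k] g) := by
  funext τ
  rw [Pi.smul_apply, SL_slash_apply, SL_slash_apply, ModularGroup.SL_neg_smul]
  have h2 : denom (-g : SL(2, ℤ)) τ = (-1) * denom g τ := by
    rw [ModularGroup.denom_apply, ModularGroup.denom_apply]
    simp
    ring
  rw [h2, mul_zpow, zpow_neg (-1 : ℂ) k, ← inv_zpow, inv_neg, inv_one, smul_eq_mul]
  ring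

/-- in even weight -/
theorem slash_neg' {k : ℤ} (hk : Even k) (f : ℍ → ℂ) (g : SL(2, ℤ)) : f ∣[k] (-g) = f ∣[k] g := by
  rw [slash_neg, hk.neg_one_zpow, one_smul]

theorem exp_half : Complex.exp (2 * Real.pi * Complex.I * ((1 : ℝ) : ℂ) / 2) = -1 := by
  have h1 : (2 * Real.pi * Complex.I * ((1 : ℝ) : ℂ) / 2 : ℂ) = Real.pi * Complex.I := by
    push_cast
    ring
  rw [h1, Complex.exp_pi_mul_I]

theorem Y_T : Yf ∣[(2 : ℤ)] ModularGroup.T = (-1 : ℂ) • Yf := by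
  have h := ser_Y.shift 1
  rw [exp_half] at h
  have h2 : PowerSeries.rescale (-1 : ℂ) Yq = (-1 : ℂ) • Yq := by
    ext n
    rw [coeff_rescale, coeff_smul, Yq, coeff_map, smul_eq_mul]
    by_cases hn : n % 2 = 1
    · rw [(Nat.odd_iff.2 hn).neg_one_pow]
    · rw [eight_K, Kz_gr n hn, mul_zero, map_zero, mul_zero, mul_zero]
  rw [h2] at h
  rw [slash_T1]
  exact Ser.fn_unique h (ser_Y.smul (-1))

theorem X_T : Xf ∣[(2 : ℤ)] ModularGroup.T = Zf := by
  rw [slash_T1]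
  rfl

theorem Z_T : Zf ∣[(2 : ℤ)] ModularGroup.T = Xf := by
  rw [slash_T1]
  funext τ
  rw [Zf, pt_pt one_pos one_pos, ← ser_X.per τ]
  congr 2 <;> norm_num

private theorem grp_TS : ModularGroup.T * ModularGroup.S =
    -(ModularGroup.S * ModularGroup.T⁻¹ * ModularGroup.S * ModularGroup.T⁻¹ : SL(2, ℤ)) := by
  decide +kernel

theorem Y_Ti : Yf ∣[(2 : ℤ)] ModularGroup.T⁻¹ = (-1 : ℂ) • Yf := by
  have h := congrArg (fun f => f ∣[(2 : ℤ)] ModularGroup.T⁻¹) Y_T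
  simp only [← SlashAction.slash_mul, mul_inv_cancel, SlashAction.slash_one, SL_smul_slash] at h
  conv_rhs => rw [h]
  rw [smul_smul]
  norm_num

theorem X_Ti : Xf ∣[(2 : ℤ)] ModularGroup.T⁻¹ = Zf := by
  have h := congrArg (fun f => f ∣[(2 : ℤ)] ModularGroup.T⁻¹) Z_T
  simp only [← SlashAction.slash_mul, mul_inv_cancel, SlashAction.slash_one] at h
  exact h.symm

theorem Z_Ti : Zf ∣[(2 : ℤ)] ModularGroup.T⁻¹ = Xf := by
  have h := congrArg (fun f => f ∣[(2 : ℤ)] ModularGroup.T⁻¹) X_T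
  simp only [← SlashAction.slash_mul, mul_inv_cancel, SlashAction.slash_one] at h
  exact h.symm

theorem Z_S : Zf ∣[(2 : ℤ)] ModularGroup.S = (-1 : ℂ) • Zf := by
  rw [← X_T, ← SlashAction.slash_mul, grp_TS, slash_neg' (by decide), SlashAction.slash_mul,
    SlashAction.slash_mul, SlashAction.slash_mul, X_S, SL_smul_slash, SL_smul_slash, SL_smul_slash, Y_Ti,
    SL_smul_slash, SL_smul_slash, Y_S, SL_smul_slash, X_Ti, X_T, smul_smul, smul_smul]
  norm_num

theorem pow_slash (k : ℤ) (f : ℍ → ℂ) (g : SL(2, ℤ)) (n : ℕ) :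
    (f ^ n) ∣[(n * k : ℤ)] g = (f ∣[k] g) ^ n := by
  induction n with
  | zero =>
    rw [Nat.cast_zero, zero_mul, pow_zero, pow_zero]
    exact is_invariant_one g
  | succ n ih =>
    have h : ((n + 1 : ℕ) : ℤ) * k = n * k + k := by
      push_cast
      ring
    rw [h, pow_succ, mul_slash_SL2, ih, pow_succ]

namespace MF

variable {k l : ℤ} {f g : ℍ → ℂ}

theorem const (c : ℂ) : MF 0 (fun _ => c) := by
  intro g
  have h : (fun _ : ℍ => c) ∣[(0 : ℤ)] g = fun _ => c := is_invariant_const g c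
  refine ⟨PowerSeries.C c, ?_⟩
  rw [h]
  exact Ser.const c

theorem add (hf : MF k f) (hg : MF k g) : MF k (f + g) := by
  intro h
  obtain ⟨F, hF⟩ := hf h
  obtain ⟨G, hG⟩ := hg h
  refine ⟨F + G, ?_⟩
  rw [SlashAction.add_slash]
  exact hF.add hG

theorem smul (c : ℂ) (hf : MF k f) : MF k (c • f) := by
  intro h
  obtain ⟨F, hF⟩ := hf h
  refine ⟨c • F, ?_⟩
  rw [SL_smul_slash]
  exact hF.smul c

theorem mul (hf : MF k f) (hg : MF l g) : MF (k + l) (f * g) := by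
  intro h
  obtain ⟨F, hF⟩ := hf h
  obtain ⟨G, hG⟩ := hg h
  refine ⟨F * G, ?_⟩
  rw [mul_slash_SL2]
  exact hF.mul hG

theorem pow (hf : MF k f) (n : ℕ) : MF (n * k) (f ^ n) := by
  intro h
  obtain ⟨F, hF⟩ := hf h
  refine ⟨F ^ n, ?_⟩
  rw [pow_slash]
  exact hF.pow n

theorem slash (hf : MF k f) (g : SL(2, ℤ)) : MF k (f ∣[k] g) := by
  intro h
  obtain ⟨F, hF⟩ := hf (g * h)
  refine ⟨F, ?_⟩
  rw [← SlashAction.slash_mul]
  exact hF

/-- invariance under the normal closure of `T ^ 2` -/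
theorem inv (hf : MF k f) (n : SL(2, ℤ)) (hn : n ∈ Nn) : f ∣[k] n = f := by
  let H : Subgroup SL(2, ℤ) :=
    { carrier := {n | ∀ g : SL(2, ℤ), f ∣[k] (g * n) = f ∣[k] g}
      one_mem' := by
        intro g
        rw [mul_one]
      mul_mem' := by
        intro a b ha hb g
        rw [← mul_assoc, hb (g * a), ha g]
      inv_mem' := by
        intro a ha g
        have h := ha (g * a⁻¹)
        rw [inv_mul_cancel_right] at h
        exact h.symm }
  have hN : H.Normal := by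
    constructor
    intro a ha g h
    have h1 : h * (g * a * g⁻¹) = (h * g * a) * g⁻¹ := by group
    rw [h1, SlashAction.slash_mul, ha (h * g), ← SlashAction.slash_mul, mul_inv_cancel_right]
  have hT : ModularGroup.T ^ 2 ∈ H := by
    intro g
    rw [SlashAction.slash_mul]
    have h1 := slash_T k (f ∣[k] g) 2
    have h2 : (ModularGroup.T ^ (2 : ℤ) : SL(2, ℤ)) = ModularGroup.T ^ 2 := by
      norm_cast
    rw [h2] at h1
    rw [h1]
    funext τ
    obtain ⟨F, hF⟩ := hf g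
    have h3 := hF.per τ
    push_cast
    exact h3
  have hle : Nn ≤ H := Subgroup.normalClosure_le_normal (by
    intro x hx
    rw [Set.mem_singleton_iff] at hx
    rw [hx]
    exact hT)
  have h := hle hn 1
  rw [one_mul, SlashAction.slash_one] at h
  exact h

/-- invariance under `Γ(2)` in even weight -/
theorem inv2 (hk : Even k) (hf : MF k f) (n : SL(2, ℤ)) (hn : n ∈ Nn ∨ -n ∈ Nn) : f ∣[k] n = f := by
  rcases hn with hn | hn
  · exact hf.inv n hn
  · have h := hf.inv (-n) hn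
    rwa [slash_neg' hk] at h

theorem ser (hf : MF k f) : ∃ F : ℂ⟦X⟧, Ser f F := by
  obtain ⟨F, hF⟩ := hf 1
  rw [SlashAction.slash_one] at hF
  exact ⟨F, hF⟩

end MF

/-- the span of `X`, `Y`, `Z` -/
private noncomputable def W : Submodule ℂ (ℍ → ℂ) := Submodule.span ℂ {Xf, Yf, Zf}

private theorem W_X : Xf ∈ W := Submodule.subset_span (by simp)

private theorem W_Y : Yf ∈ W := Submodule.subset_span (by simp)

private theorem W_Z : Zf ∈ W := Submodule.subset_span (by simp)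

private theorem W_of {g : SL(2, ℤ)} (hX : Xf ∣[(2 : ℤ)] g ∈ W) (hY : Yf ∣[(2 : ℤ)] g ∈ W)
    (hZ : Zf ∣[(2 : ℤ)] g ∈ W) (f : ℍ → ℂ)
    (hf : f ∈ W) : f ∣[(2 : ℤ)] g ∈ W := by
  rw [W, Submodule.mem_span_triple] at hf
  obtain ⟨a, b, c, rfl⟩ := hf
  rw [SlashAction.add_slash, SlashAction.add_slash, SL_smul_slash, SL_smul_slash, SL_smul_slash]
  exact W.add_mem (W.add_mem (W.smul_mem a hX) (W.smul_mem b hY)) (W.smul_mem c hZ)

private theorem W_S (f : ℍ → ℂ) (hf : f ∈ W) : f ∣[(2 : ℤ)] ModularGroup.S ∈ W := by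
  refine W_of ?_ ?_ ?_ f hf
  · rw [X_S]
    exact W.smul_mem _ W_Y
  · rw [Y_S]
    exact W.smul_mem _ W_X
  · rw [Z_S]
    exact W.smul_mem _ W_Z

private theorem W_T (f : ℍ → ℂ) (hf : f ∈ W) : f ∣[(2 : ℤ)] ModularGroup.T ∈ W := by
  refine W_of ?_ ?_ ?_ f hf
  · rw [X_T]
    exact W_Z
  · rw [Y_T]
    exact W.smul_mem _ W_Y
  · rw [Z_T]
    exact W_X

private theorem W_Si (f : ℍ → ℂ) (hf : f ∈ W) : f ∣[(2 : ℤ)] ModularGroup.S⁻¹ ∈ W := by
  have h : ModularGroup.S⁻¹ = -ModularGroup.S := by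
    rw [_root_.inv_eq_iff_mul_eq_one]
    ext i j
    fin_cases i <;> fin_cases j <;> simp [ModularGroup.S]
  rw [h, slash_neg]
  exact W.smul_mem _ (W_S f hf)

private theorem W_Ti (f : ℍ → ℂ) (hf : f ∈ W) : f ∣[(2 : ℤ)] ModularGroup.T⁻¹ ∈ W := by
  refine W_of ?_ ?_ ?_ f hf
  · rw [X_Ti]
    exact W_Z
  · rw [Y_Ti]
    exact W.smul_mem _ W_Y
  · rw [Z_Ti]
    exact W_X

private theorem W_all (g : SL(2, ℤ)) :
    (∀ f ∈ W, f ∣[(2 : ℤ)] g ∈ W) ∧ (∀ f ∈ W, f ∣[(2 : ℤ)] g⁻¹ ∈ W) := by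
  have hg : g ∈ Subgroup.closure {ModularGroup.S, ModularGroup.T} := by
    rw [SpecialLinearGroup.SL2Z_generators]
    exact Subgroup.mem_top g
  induction hg using Subgroup.closure_induction with
  | mem x hx =>
    rcases hx with rfl | hx
    · exact ⟨W_S, W_Si⟩
    · rw [Set.mem_singleton_iff] at hx
      rw [hx]
      exact ⟨W_T, W_Ti⟩
  | one =>
    constructor
    · intro f hf
      rw [SlashAction.slash_one]
      exact hf
    · intro f hf
      rw [inv_one, SlashAction.slash_one]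
      exact hf
  | mul x y _ _ hx hy =>
    constructor
    · intro f hf
      rw [SlashAction.slash_mul]
      exact hy.1 _ (hx.1 _ hf)
    · intro f hf
      rw [mul_inv_rev, SlashAction.slash_mul]
      exact hx.2 _ (hy.2 _ hf)
  | inv x _ hx =>
    constructor
    · exact hx.2
    · rw [inv_inv]
      exact hx.1

theorem ser_Z : Ser Zf (PowerSeries.rescale (-1 : ℂ) (PowerSeries.map (Int.castRingHom ℂ) Xz)) := by
  have h := ser_X.shift 1
  rw [exp_half] at h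
  exact h

private theorem W_ser (f : ℍ → ℂ) (hf : f ∈ W) : ∃ F : ℂ⟦X⟧, Ser f F := by
  rw [W, Submodule.mem_span_triple] at hf
  obtain ⟨a, b, c, rfl⟩ := hf
  exact ⟨_, ((ser_X.smul a).add (ser_Y.smul b)).add (ser_Z.smul c)⟩

theorem mf_X : MF 2 Xf := fun g => W_ser _ ((W_all g).1 _ W_X)

theorem mf_Y : MF 2 Yf := fun g => W_ser _ ((W_all g).1 _ W_Y)

theorem mf_Z : MF 2 Zf := fun g => W_ser _ ((W_all g).1 _ W_Z)

theorem mf_A : MF 2 Af := mf_X.add mf_Y

end Pool.Agent.Lib.MP_06b9d2_tl2.An
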