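import Pool.Agent.Lib.MP_06b9d2_tl2.An.SerA
import Pool.Agent.Lib.MP_06b9d2_tls.An.SerB

/-!
Module TL2-A-SerB: analytic properties of expansions (period 2) and existence.
-/

namespace Pool.Agent.Lib.MP_06b9d2_tl2.An

open UpperHalfPlane hiding I
open Complex ModularForm PowerSeries Filter
open scoped Real MatrixGroups Manifold Topology
open Pool.Agent.Lib.MP_06b9d2_tls (V U)
open Pool.Agent.Lib.MP_06b9d2_tls.An (pt Pz Vz coe_pt pt_pt pt_one_zero im_pt mdiff_pt bdd_pt)

/-- a holomorphic 2-periodic function which is bounded at `i∞` has an expansion -/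
theorem ser_of {f : ℍ → ℂ} (hol : MDiff f) (hb : IsBoundedAtImInfty f) (hp : ∀ τ, f (pt 1 2 τ) = f τ) :
    ∃ F : ℂ⟦X⟧, Ser f F := by
  have hper : Function.Periodic (f ∘ ofComplex) ((2 : ℝ) : ℂ) := by
    intro w
    by_cases hw : 0 < w.im
    · have h3 : 0 < (w + ((2 : ℝ) : ℂ)).im := by simpa using hw
      simp only [Function.comp_apply, ofComplex_apply_of_im_pos h3, ofComplex_apply_of_im_pos hw]
      rw [← hp ⟨w, hw⟩]
      congr 1
      apply UpperHalfPlane.ext
      rw [coe_pt one_pos]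
      simp
    · have h3 : (w + ((2 : ℝ) : ℂ)).im ≤ 0 := by simpa using hw
      simp only [Function.comp_apply, ofComplex_apply_of_im_nonpos h3,
        ofComplex_apply_of_im_nonpos (not_lt.1 hw)]
  refine ⟨qExpansion 2 f, fun τ => ?_⟩
  have := UpperHalfPlane.hasSum_qExpansion (h := 2) (by norm_num) hper hol hb τ
  simpa [xq, smul_eq_mul] using this

theorem xq_ne_zero (τ : ℍ) : xq τ ≠ 0 := by
  rw [xq]
  exact Function.Periodic.qParam_ne_zero _

theorem xq_eq (τ : ℍ) : xq τ = Complex.exp (2 * Real.pi * Complex.I * (τ : ℂ) / 2) := by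
  rw [xq, Function.Periodic.qParam]
  push_cast
  rfl

theorem xq_pt {r : ℝ} (hr : 0 < r) (t : ℝ) (τ : ℍ) :
    xq (pt r t τ) = Complex.exp (2 * Real.pi * Complex.I * ((r : ℂ) * (τ : ℂ)) / 2) *
      Complex.exp (2 * Real.pi * Complex.I * t / 2) := by
  rw [xq_eq, coe_pt hr, ← Complex.exp_add]
  congr 1
  ring

namespace Ser

variable {f g : ℍ → ℂ} {F G : ℂ⟦X⟧}

theorem hasFPS (hf : Ser f F) :
    HasFPowerSeriesOnBall (fun z : ℂ => ∑' n : ℕ, coeff n F * z ^ n)
      (FormalMultilinearSeries.ofScalars ℂ (fun n => coeff n F)) 0 1 := by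
  have hsum : ∀ z : ℂ, ‖z‖ < 1 → Summable (fun n : ℕ => coeff n F * z ^ n) := by
    intro z hz
    by_cases h0 : z = 0
    · subst h0
      refine summable_of_ne_finset_zero (s := {0}) ?_
      intro n hn
      have : n ≠ 0 := by simpa using hn
      simp [this]
    · obtain ⟨τ, rfl⟩ := exists_xq z h0 hz
      exact (hf τ).summable
  constructor
  · refine le_of_forall_lt_imp_le_of_dense fun r hr ↦ ?_
    lift r to NNReal using hr.ne_top
    apply FormalMultilinearSeries.le_radius_of_summable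
    have h1 : (r : ℝ) < 1 := by exact_mod_cast hr
    have := (hsum ((r : ℝ) : ℂ) (by simpa using h1)).norm
    simpa [smul_eq_mul, norm_mul, mul_comm, mul_left_comm, mul_assoc] using this
  · simp
  · intro y hy
    rw [← ENNReal.coe_one, Metric.eball_coe, NNReal.coe_one, mem_ball_zero_iff] at hy
    have := (hsum y hy).hasSum
    simpa [mul_comm] using this

theorem eq_tsum (hf : Ser f F) (τ : ℍ) : f τ = ∑' n : ℕ, coeff n F * xq τ ^ n := ((hf τ).tsum_eq).symm

theorem mdiff (hf : Ser f F) : MDiff f := by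
  rw [UpperHalfPlane.mdifferentiable_iff]
  have h1 : DifferentiableOn ℂ (fun z : ℂ => ∑' n : ℕ, coeff n F * z ^ n) (Metric.ball 0 1) := by
    have := hf.hasFPS.differentiableOn
    rwa [← ENNReal.coe_one, Metric.eball_coe, NNReal.coe_one] at this
  have h2 : DifferentiableOn ℂ (fun z : ℂ => Complex.exp (2 * Real.pi * Complex.I * z / 2)) {z | 0 < z.im} := by
    fun_prop
  have hm : Set.MapsTo (fun z : ℂ => Complex.exp (2 * Real.pi * Complex.I * z / 2)) {z | 0 < z.im}
      (Metric.ball 0 1) := by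
    intro z hz
    have hz' : 0 < z.im := hz
    rw [mem_ball_zero_iff]
    have := norm_xq ⟨z, hz'⟩
    rwa [xq_eq] at this
  refine (h1.comp h2 hm).congr ?_
  intro z hz
  have hz' : 0 < z.im := hz
  show f (ofComplex z) = _
  rw [ofComplex_apply_of_im_pos hz', hf.eq_tsum]
  simp only [xq_eq, Function.comp_apply]

theorem bdd (hf : Ser f F) : IsBoundedAtImInfty f := by
  refine UpperHalfPlane.isBoundedAtImInfty_of_hasSum_qExpansion (h := 2) (c := fun n => coeff n F) (by norm_num) ?_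
  intro τ
  simpa [xq, smul_eq_mul] using hf τ

theorem tendsto (hf : Ser f F) : Tendsto f atImInfty (𝓝 (constantCoeff F)) := by
  have h1 : Tendsto (fun z : ℂ => ∑' n : ℕ, coeff n F * z ^ n) (𝓝 0) (𝓝 (∑' n : ℕ, coeff n F * (0 : ℂ) ^ n)) :=
    hf.hasFPS.hasFPowerSeriesAt.continuousAt.tendsto
  have h2 : (∑' n : ℕ, coeff n F * (0 : ℂ) ^ n) = constantCoeff F := by
    rw [tsum_eq_single 0]
    · simp
    · intro n hn
      simp [hn]
  rw [h2] at h1
  have h3 : Tendsto (fun τ : ℍ => xq τ) atImInfty (𝓝 0) :=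
    qParam_tendsto_atImInfty (h := 2) (by norm_num)
  refine (h1.comp h3).congr ?_
  intro τ
  exact (hf.eq_tsum τ).symm

theorem per (hf : Ser f F) (τ : ℍ) : f (pt 1 2 τ) = f τ := by
  have hx : xq (pt 1 2 τ) = xq τ := by
    rw [xq_pt one_pos, xq_eq]
    have h1 : Complex.exp (2 * Real.pi * Complex.I * ((2 : ℝ) : ℂ) / 2) = 1 := by
      have : (2 * Real.pi * Complex.I * ((2 : ℝ) : ℂ) / 2 : ℂ) = 2 * Real.pi * Complex.I := by
        push_cast
        ring
      rw [this, Complex.exp_two_pi_mul_I]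
    rw [h1, mul_one]
    push_cast
    rw [one_mul]
  rw [hf.eq_tsum, hf.eq_tsum, hx]

/-- `f(τ + t)` -/
theorem shift (hf : Ser f F) (t : ℝ) :
    Ser (fun τ => f (pt 1 t τ)) (PowerSeries.rescale (Complex.exp (2 * Real.pi * Complex.I * t / 2)) F) := by
  intro τ
  have h := hf (pt 1 t τ)
  have hx : xq (pt 1 t τ) = Complex.exp (2 * Real.pi * Complex.I * t / 2) * xq τ := by
    rw [xq_pt one_pos, xq_eq τ, mul_comm]
    push_cast
    rw [one_mul]
  rw [hx] at h
  convert h using 2 with n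
  rw [PowerSeries.coeff_rescale, mul_pow]
  ring

/-- `f(n τ)` -/
theorem scale (hf : Ser f F) (n : ℕ) (hn : 0 < n) : Ser (fun τ => f (pt n 0 τ)) (V n F) := by
  intro τ
  have hn' : (0 : ℝ) < (n : ℝ) := by exact_mod_cast hn
  have h := hf (pt n 0 τ)
  have hx : xq (pt n 0 τ) = xq τ ^ n := by
    rw [xq_pt hn', xq_eq τ, ← Complex.exp_nat_mul, ← Complex.exp_add]
    congr 1
    push_cast
    ring
  rw [hx] at h
  have hinj : Function.Injective (fun m : ℕ => n * m) := fun a b hab => Nat.eq_of_mul_eq_mul_left hn hab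
  have hiff := hinj.hasSum_iff (f := fun m : ℕ => coeff m (V n F) * xq τ ^ m) (a := f (pt n 0 τ)) (by
    intro m hm
    have hnd : ¬ n ∣ m := by
      rintro ⟨c, rfl⟩
      exact hm ⟨c, rfl⟩
    simp [V, hnd])
  refine hiff.1 ?_
  convert h using 2 with m
  simp only [Function.comp_apply, V, PowerSeries.coeff_mk]
  rw [if_pos (Dvd.intro m rfl), Nat.mul_div_cancel_left m hn, pow_mul]

/-- `f(τ / n)` if the expansion of `f` is `F(x ^ n)` -/
theorem unscale (n : ℕ) (hn : 0 < n) (hf : Ser f (V n F)) : Ser (fun τ => f (pt (1 / n) 0 τ)) F := by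
  intro τ
  have hn' : (0 : ℝ) < (n : ℝ) := by exact_mod_cast hn
  have hn1 : (0 : ℝ) < 1 / (n : ℝ) := by positivity
  have h := hf (pt (1 / n) 0 τ)
  have hx : xq (pt (1 / n) 0 τ) ^ n = xq τ := by
    rw [xq_pt hn1, xq_eq τ, mul_pow, ← Complex.exp_nat_mul, ← Complex.exp_nat_mul, ← Complex.exp_add]
    congr 1
    have hc : (n : ℂ) ≠ 0 := by exact_mod_cast hn.ne'
    push_cast
    field_simp
    ring
  have hinj : Function.Injective (fun m : ℕ => n * m) := fun a b hab => Nat.eq_of_mul_eq_mul_left hn hab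
  have hiff := hinj.hasSum_iff (f := fun m : ℕ => coeff m (V n F) * xq (pt (1 / n) 0 τ) ^ m)
    (a := f (pt (1 / n) 0 τ)) (by
    intro m hm
    have hnd : ¬ n ∣ m := by
      rintro ⟨c, rfl⟩
      exact hm ⟨c, rfl⟩
    simp [V, hnd])
  have h2 := hiff.2 h
  convert h2 using 2 with m
  simp only [Function.comp_apply, V, PowerSeries.coeff_mk]
  rw [if_pos (Dvd.intro m rfl), Nat.mul_div_cancel_left m hn, pow_mul, hx]

/-- division by a function without zeros and with nonzero value at `i∞` -/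
theorem div1 (hf : Ser f F) (hg : Ser g G) (h0 : ∀ τ, g τ ≠ 0) (hG : constantCoeff G ≠ 0) :
    ∃ H : ℂ⟦X⟧, Ser (f / g) H := by
  refine ser_of ?_ ?_ ?_
  · have h1 := hf.mdiff
    have h2 := hg.mdiff
    rw [UpperHalfPlane.mdifferentiable_iff] at h1 h2 ⊢
    exact h1.div h2 (fun z _ => h0 _)
  · have ht : Tendsto (f / g) atImInfty (𝓝 (constantCoeff F / constantCoeff G)) :=
      hf.tendsto.div hg.tendsto hG
    exact ht.isBigO_one ℝ
  · intro τ
    simp only [Pi.div_apply, hf.per, hg.per]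

theorem shiftDown (hf : Ser f F) (hF : constantCoeff F = 0) :
    Ser (fun τ => f τ / xq τ) (PowerSeries.mk fun n => coeff (n + 1) F) := by
  intro τ
  have hx := xq_ne_zero τ
  have h := hf τ
  have h2 := (hasSum_nat_add_iff' 1).2 h
  simp only [Finset.range_one, Finset.sum_singleton, PowerSeries.coeff_zero_eq_constantCoeff_apply, hF,
    zero_mul, sub_zero] at h2
  have h3 := h2.mul_right (xq τ)⁻¹
  have hfun : (fun n : ℕ => coeff n (PowerSeries.mk fun n => coeff (n + 1) F) * xq τ ^ n) =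
      fun n : ℕ => coeff (n + 1) F * xq τ ^ (n + 1) * (xq τ)⁻¹ := by
    funext n
    rw [PowerSeries.coeff_mk, pow_succ]
    field_simp
  show HasSum (fun n : ℕ => coeff n (PowerSeries.mk fun n => coeff (n + 1) F) * xq τ ^ n) (f τ / xq τ)
  rw [hfun, div_eq_mul_inv]
  exact h3

/-- division of a function vanishing at `i∞` by a function with a simple zero there -/
theorem div0 (hf : Ser f F) (hF : constantCoeff F = 0) (hg : Ser g G) (h0 : ∀ τ, g τ ≠ 0)
    (hG : coeff 1 G ≠ 0) : ∃ H : ℂ⟦X⟧, Ser (f / g) H := by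
  by_cases hG0 : constantCoeff G = 0
  · obtain ⟨H, hH⟩ := (hf.shiftDown hF).div1 (hg.shiftDown hG0)
      (fun τ => div_ne_zero (h0 τ) (xq_ne_zero τ)) (by
        rw [← PowerSeries.coeff_zero_eq_constantCoeff_apply, PowerSeries.coeff_mk]
        exact hG)
    refine ⟨H, ?_⟩
    have : (f / g) = ((fun τ => f τ / xq τ) / fun τ => g τ / xq τ) := by
      funext τ
      simp only [Pi.div_apply]
      rw [div_div_div_cancel_right₀ (xq_ne_zero τ)]
    rw [this]
    exact hH
  · exact hf.div1 hg h0 hG0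

end Ser

end Pool.Agent.Lib.MP_06b9d2_tl2.An
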