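import Pool.Agent.Lib.MP_06b9d2_tl2.An.MFa

/-!
Module TL2-A-TH: the Hecke operators `T_l`, `l` odd, preserve the forms for `Γ(2)`.
-/

namespace Pool.Agent.Lib.MP_06b9d2_tl2.An

open UpperHalfPlane hiding I
open Complex ModularForm PowerSeries Filter
open scoped Real MatrixGroups Manifold Topology
open Pool.Agent.Lib.MP_06b9d2_tls (V U)
open Pool.Agent.Lib.MP_06b9d2_tls.An (pt Pz Vz coe_pt pt_pt pt_one_zero mdiff_pt bdd_pt)

/-- `l` is an odd prime -/
def Pe (l : ℕ) : Prop := l.Prime ∧ l ≠ 2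

/-- the slash action explicitly -/
private theorem TH_sl (k : ℤ) (f : ℍ → ℂ) (g : SL(2, ℤ)) (z y : ℍ)
    (h : (y : ℂ) * (((g 1 0 : ℤ) : ℂ) * (z : ℂ) + ((g 1 1 : ℤ) : ℂ)) = ((g 0 0 : ℤ) : ℂ) * (z : ℂ) + ((g 0 1 : ℤ) : ℂ))
    (h0 : ((g 1 0 : ℤ) : ℂ) * (z : ℂ) + ((g 1 1 : ℤ) : ℂ) ≠ 0) :
    (f ∣[k] g) z = f y * (((g 1 0 : ℤ) : ℂ) * (z : ℂ) + ((g 1 1 : ℤ) : ℂ)) ^ (-k) := by
  have h1 : g • z = y := by
    apply UpperHalfPlane.ext
    rw [coe_specialLinearGroup_apply]
    simp only [algebraMap_int_eq, eq_intCast, ofReal_intCast]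
    rw [div_eq_iff h0, h]
  rw [SL_slash_apply, h1]
  rfl

private theorem TH_S (k : ℤ) (f : ℍ → ℂ) (z y : ℍ) (h : (y : ℂ) * (z : ℂ) = -1) :
    (f ∣[k] ModularGroup.S) z = f y * (z : ℂ) ^ (-k) := by
  have h0 : (z : ℂ) ≠ 0 := z.ne_zero
  have := TH_sl k f ModularGroup.S z y (by simpa [ModularGroup.S] using h) (by simpa [ModularGroup.S] using h0)
  simpa [ModularGroup.S] using this

/-- a sum of a periodic function over `range l` as a sum over `ZMod l` -/
private theorem TH_sum {l : ℕ} [NeZero l] (g : ℤ → ℂ) (hg : ∀ n, g (n + l) = g n) :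
    ∃ G : ZMod l → ℂ, (∀ n : ℤ, G (n : ZMod l) = g n) ∧ ∑ b ∈ Finset.range l, g b = ∑ z : ZMod l, G z := by
  have hk : ∀ (k : ℕ) (n : ℤ), g (n + k * l) = g n := by
    intro k
    induction k with
    | zero => intro n; simp
    | succ k ih =>
      intro n
      have := hg (n + k * l)
      rw [ih n] at this
      rw [← this]
      congr 1
      push_cast
      ring
  have hm : ∀ (m n : ℤ), g (n + m * l) = g n := by
    intro m n
    obtain ⟨k, rfl | rfl⟩ := m.eq_nat_or_neg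
    · exact hk k n
    · have := hk k (n + -(k : ℤ) * l)
      rw [← this]
      congr 1
      ring
  refine ⟨fun z => g (z.val : ℤ), ?_, ?_⟩
  · intro n
    show g (((n : ZMod l)).val : ℤ) = g n
    rw [ZMod.val_intCast]
    have h1 : n = n % (l : ℤ) + (n / (l : ℤ)) * l := by
      rw [mul_comm]; exact (Int.emod_add_mul_ediv n l).symm
    conv_rhs => rw [h1, hm]
  · refine Finset.sum_bij' (fun b _ => (b : ZMod l)) (fun z _ => z.val) ?_ ?_ ?_ ?_ ?_
    · intro b _; exact Finset.mem_univ _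
    · intro z _; exact Finset.mem_range.2 (ZMod.val_lt z)
    · intro b hb; exact ZMod.val_cast_of_lt (Finset.mem_range.1 hb)
    · intro z _; exact ZMod.natCast_zmod_val z
    · intro b hb
      show g b = g (((b : ZMod l)).val : ℤ)
      rw [ZMod.val_cast_of_lt (Finset.mem_range.1 hb)]

private theorem TH_perk {f : ℍ → ℂ} (hp : ∀ τ, f (pt 1 2 τ) = f τ) (m : ℤ) {r : ℝ} (hr : 0 < r) (t : ℝ) (τ : ℍ) :
    f (pt r (t + 2 * m) τ) = f (pt r t τ) := by
  have hk : ∀ (k : ℕ) (t : ℝ), f (pt r (t + 2 * k) τ) = f (pt r t τ) := by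
    intro k
    induction k with
    | zero => intro t; simp
    | succ k ih =>
      intro t
      rw [← ih t, ← hp (pt r (t + 2 * k) τ), pt_pt one_pos hr]
      congr 2
      · ring
      · push_cast; ring
  obtain ⟨k, rfl | rfl⟩ := m.eq_nat_or_neg
  · simpa using hk k t
  · have := hk k (t + 2 * ((-(k : ℤ) : ℤ) : ℝ))
    rw [← this]
    congr 2
    push_cast
    ring

private theorem TH_pos {l : ℕ} (hl : Pe l) : (0 : ℝ) < l := by
  exact_mod_cast hl.1.pos

private theorem TH_c {l : ℕ} (hl : Pe l) : ∃ c : ℤ, 2 * c = 1 - l := by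
  have h := hl.1.eq_two_or_odd
  refine ⟨(1 - l) / 2, ?_⟩
  have := hl.2
  omega

/-- the term with the number `n` -/
private noncomputable def tm (l : ℕ) (f : ℍ → ℂ) (τ : ℍ) (n : ℤ) : ℂ := f (pt (1 / l) (2 * n / l) τ)

private theorem tm_per {l : ℕ} (hl : (0 : ℝ) < l) {f : ℍ → ℂ} (hp : ∀ τ, f (pt 1 2 τ) = f τ) (τ : ℍ) (n : ℤ) :
    tm l f τ (n + l) = tm l f τ n := by
  have := TH_perk hp 1 (r := 1 / l) (by positivity) (2 * n / l) τ
  rw [tm, tm, ← this]
  congr 2
  push_cast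
  field_simp

private theorem th_eq {l : ℕ} (w : ℕ) (f : ℍ → ℂ) (τ : ℍ) :
    THf l w f τ = ∑ b ∈ Finset.range l, tm l f τ b + (l : ℂ) ^ (2 * w) * f (pt l 0 τ) := by
  simp [THf, tm]

theorem th_T {l : ℕ} (hl : Pe l) {w : ℕ} {f : ℍ → ℂ} (hf : MF (2 * (w : ℤ)) f) :
    THf l w f ∣[2 * (w : ℤ)] ModularGroup.T = THf l w (f ∣[2 * (w : ℤ)] ModularGroup.T) := by
  have hl0 := TH_pos hl
  have : NeZero l := ⟨hl.1.ne_zero⟩
  obtain ⟨F, hF⟩ := hf.ser
  have hp := hF.per
  obtain ⟨c, hc⟩ := TH_c hl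
  rw [slash_T1]
  funext τ
  rw [th_eq, th_eq]
  have hfe : f ∣[2 * (w : ℤ)] ModularGroup.T = fun τ => f (pt 1 1 τ) := slash_T1 _ f
  congr 1
  · -- the finite branches
    obtain ⟨G, hG1, hG2⟩ := TH_sum (l := l) (fun n => tm l (f ∣[2 * (w : ℤ)] ModularGroup.T) τ n) (by
      intro n
      apply tm_per hl0
      intro z
      rw [hfe]
      simp only
      rw [← TH_perk hp 1 (r := 1) one_pos 1 z, pt_pt one_pos one_pos]
      congr 2
      · norm_num
      · push_cast; ring)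
    rw [hG2]
    have h1 : ∀ b : ℕ, tm l f (pt 1 1 τ) b = G (((b : ℕ) : ZMod l) + ((c : ℤ) : ZMod l)) := by
      intro b
      have h2 := hG1 ((b : ℤ) + c)
      rw [show ((((b : ℤ) + c : ℤ)) : ZMod l) = ((b : ℕ) : ZMod l) + ((c : ℤ) : ZMod l) by push_cast; rfl] at h2
      rw [h2, tm, tm, hfe]
      beta_reduce
      rw [pt_pt (by positivity) one_pos, pt_pt one_pos (by positivity)]
      congr 2
      · norm_num
      · have h3 : (2 : ℝ) * c = 1 - l := by exact_mod_cast hc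
        push_cast
        field_simp
        linear_combination -h3
    have h4 : ∑ b ∈ Finset.range l, tm l f (pt 1 1 τ) b = ∑ z : ZMod l, G (z + ((c : ℤ) : ZMod l)) := by
      refine Finset.sum_bij' (fun b _ => (b : ZMod l)) (fun z _ => z.val) ?_ ?_ ?_ ?_ ?_
      · intro b _; exact Finset.mem_univ _
      · intro z _; exact Finset.mem_range.2 (ZMod.val_lt z)
      · intro b hb; exact ZMod.val_cast_of_lt (Finset.mem_range.1 hb)
      · intro z _; exact ZMod.natCast_zmod_val z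
      · intro b _; exact h1 b
    rw [h4]
    exact Equiv.sum_comp (Equiv.addRight ((c : ℤ) : ZMod l)) G
  · congr 1
    rw [hfe]
    simp only
    rw [pt_pt hl0 one_pos, pt_pt one_pos hl0]
    have hm' : (l : ℝ) = 1 + 2 * ((-c : ℤ) : ℝ) := by
      have h3 : (2 : ℝ) * c = 1 - l := by exact_mod_cast hc
      push_cast
      linarith
    rw [show ((l : ℝ) * 1 + 0 : ℝ) = (1 : ℝ) + 2 * ((-c : ℤ) : ℝ) by rw [← hm']; ring]
    rw [TH_perk hp (-c) (by simpa using hl0)]
    congr 2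
    · ring
    · ring

private theorem coe_S (τ : ℍ) : ((ModularGroup.S • τ : ℍ) : ℂ) * (τ : ℂ) = -1 := by
  rw [modular_S_smul]
  have : (τ : ℂ) ≠ 0 := τ.ne_zero
  simp only
  field_simp

/-- a branch `b ≠ 0` modulo `l` -/
private theorem th_S_aux {l : ℕ} (hl : Pe l) {w : ℕ} {f : ℍ → ℂ} (hf : MF (2 * (w : ℤ)) f) (τ : ℍ) (b b' k : ℤ)
    (hk : 4 * b * b' + 1 = l * k) :
    tm l f (ModularGroup.S • τ) b * (τ : ℂ) ^ (-(2 * (w : ℤ))) =
      tm l (f ∣[2 * (w : ℤ)] ModularGroup.S) τ b' := by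
  have hl0 := TH_pos hl
  have hlC : (l : ℂ) ≠ 0 := by exact_mod_cast hl.1.ne_zero
  have hτ : (τ : ℂ) ≠ 0 := τ.ne_zero
  rw [tm, tm]
  obtain ⟨c, hc⟩ := TH_c hl
  -- the matrix
  let M : SL(2, ℤ) := ⟨!![2 * b, -k; (l : ℤ), -2 * b'], by
    rw [Matrix.det_fin_two_of]; linarith⟩
  have hM : f ∣[2 * (w : ℤ)] M = f ∣[2 * (w : ℤ)] ModularGroup.S := by
    have hk3 : (2 : ℤ) ∣ k - 1 := by
      have h1 : (l : ℤ) = 1 - 2 * c := by linarith
      rw [h1] at hk
      exact ⟨2 * b * b' + c * k, by linarith⟩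
    let n : SL(2, ℤ) := ⟨!![k, 2 * b; 2 * b', (l : ℤ)], by rw [Matrix.det_fin_two_of]; linarith⟩
    have hn : n ∈ Nn ∨ -n ∈ Nn :=
      mem_Nn _ (by simpa [n] using hk3) (by simp [n]) (by simp [n]) ⟨-c, by simp [n]; linarith⟩
    have hMn : M = n * ModularGroup.S := by
      apply Subtype.ext
      change (!![2 * b, -k; (l : ℤ), -2 * b'] : Matrix (Fin 2) (Fin 2) ℤ) =
        !![k, 2 * b; 2 * b', (l : ℤ)] * !![0, -1; 1, 0]
      rw [Matrix.mul_fin_two]
      congr 1
      simp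
    rw [hMn, SlashAction.slash_mul, hf.inv2 (even_two_mul _) n hn]
  have hz : ((l : ℂ)) * ((pt (1 / l) (2 * b' / l) τ : ℍ) : ℂ) + (-2 * b' : ℂ) = τ := by
    rw [coe_pt (by positivity)]
    push_cast
    field_simp
    ring
  have h2 := TH_sl (2 * (w : ℤ)) f M (pt (1 / l) (2 * b' / l) τ) (pt (1 / l) (2 * b / l) (ModularGroup.S • τ)) (by
    have h3 := coe_S τ
    simp only [M, Matrix.of_apply, Matrix.cons_val', Matrix.cons_val_zero,
      Matrix.cons_val_one, Matrix.cons_val_fin_one, Int.cast_mul, Int.cast_neg, Int.cast_natCast,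
      Int.cast_ofNat]
    rw [hz, coe_pt (by positivity), coe_pt (by positivity)]
    push_cast
    have hkC : (4 : ℂ) * b * b' + 1 = l * k := by exact_mod_cast hk
    field_simp
    linear_combination h3 - hkC) (by
    simp only [M, Matrix.of_apply, Matrix.cons_val', Matrix.cons_val_zero,
      Matrix.cons_val_one, Matrix.cons_val_fin_one, Int.cast_mul, Int.cast_neg, Int.cast_natCast,
      Int.cast_ofNat]
    rw [hz]
    exact hτ)
  rw [hM] at h2
  simp only [M, Matrix.of_apply, Matrix.cons_val', Matrix.cons_val_zero,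
      Matrix.cons_val_one, Matrix.cons_val_fin_one, Int.cast_mul, Int.cast_neg, Int.cast_natCast,
      Int.cast_ofNat] at h2
  rw [hz] at h2
  rw [← h2]

theorem th_S {l : ℕ} (hl : Pe l) {w : ℕ} {f : ℍ → ℂ} (hf : MF (2 * (w : ℤ)) f) :
    THf l w f ∣[2 * (w : ℤ)] ModularGroup.S = THf l w (f ∣[2 * (w : ℤ)] ModularGroup.S) := by
  have hl0 := TH_pos hl
  have hlC : (l : ℂ) ≠ 0 := by exact_mod_cast hl.1.ne_zero
  have : NeZero l := ⟨hl.1.ne_zero⟩
  have : Fact l.Prime := ⟨hl.1⟩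
  obtain ⟨F, hF⟩ := hf.ser
  obtain ⟨F', hF'⟩ := (hf.slash ModularGroup.S).ser
  have hp := hF.per
  have hp' := hF'.per
  funext τ
  have hτ : (τ : ℂ) ≠ 0 := τ.ne_zero
  rw [TH_S _ _ τ (ModularGroup.S • τ) (coe_S τ)]
  rw [th_eq, th_eq, add_mul, Finset.sum_mul]
  obtain ⟨G, hG1, hG2⟩ := TH_sum (l := l) (fun n => tm l f (ModularGroup.S • τ) n * (τ : ℂ) ^ (-(2 * (w : ℤ))))
    (fun n => by rw [tm_per hl0 hp])
  obtain ⟨H, hH1, hH2⟩ := TH_sum (l := l) (fun n => tm l (f ∣[2 * (w : ℤ)] ModularGroup.S) τ n)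
    (fun n => by rw [tm_per hl0 hp'])
  rw [hG2, hH2]
  -- the nonzero classes
  have hne3 : ((4 : ℤ) : ZMod l) ≠ 0 := by
    intro h
    rw [ZMod.intCast_zmod_eq_zero_iff_dvd] at h
    have h3 : l ∣ 2 ^ 2 := by exact_mod_cast h
    have h4 := hl.1.dvd_of_dvd_pow h3
    exact hl.2 ((Nat.prime_dvd_prime_iff_eq hl.1 Nat.prime_two).1 h4)
  have h1 : ∑ z ∈ Finset.univ.erase (0 : ZMod l), G z = ∑ z ∈ Finset.univ.erase (0 : ZMod l), H z := by
    refine Finset.sum_bij' (fun z _ => -(((4 : ℤ) : ZMod l) * z)⁻¹) (fun z _ => -(((4 : ℤ) : ZMod l) * z)⁻¹) ?_ ?_ ?_ ?_ ?_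
    · intro z hz
      have := (Finset.mem_erase.1 hz).1
      exact Finset.mem_erase.2 ⟨neg_ne_zero.2 (inv_ne_zero (mul_ne_zero hne3 this)), Finset.mem_univ _⟩
    · intro z hz
      have := (Finset.mem_erase.1 hz).1
      exact Finset.mem_erase.2 ⟨neg_ne_zero.2 (inv_ne_zero (mul_ne_zero hne3 this)), Finset.mem_univ _⟩
    · intro z hz
      have := (Finset.mem_erase.1 hz).1
      field_simp
    · intro z hz
      have := (Finset.mem_erase.1 hz).1
      field_simp
    · intro z hz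
      have hz0 := (Finset.mem_erase.1 hz).1
      obtain ⟨b, hb⟩ := ZMod.intCast_surjective z
      obtain ⟨b', hb'⟩ := ZMod.intCast_surjective (-(((4 : ℤ) : ZMod l) * z)⁻¹)
      have h2 : ((4 * b * b' + 1 : ℤ) : ZMod l) = 0 := by
        push_cast
        rw [hb, hb']
        push_cast
        have h9 : (4 : ZMod l) ≠ 0 := by simpa using hne3
        field_simp
        ring
      obtain ⟨k, hk⟩ := (ZMod.intCast_zmod_eq_zero_iff_dvd _ _).1 h2
      have h3 := th_S_aux hl hf τ b b' k hk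
      rw [← hb', ← hb, hG1, hH1]
      exact h3
  -- the classes `0` and `∞`
  have h2 : G 0 = (l : ℂ) ^ (2 * w) * (f ∣[2 * (w : ℤ)] ModularGroup.S) (pt l 0 τ) := by
    have h3 := hG1 0
    rw [Int.cast_zero] at h3
    rw [h3, TH_S _ f (pt l 0 τ) (pt (1 / l) (2 * (0 : ℤ) / l) (ModularGroup.S • τ))]
    · rw [tm, coe_pt hl0, show (2 * (w : ℤ)) = ((2 * w : ℕ) : ℤ) by push_cast; ring]
      simp only [ofReal_natCast, ofReal_zero, add_zero, zpow_neg, zpow_natCast, mul_pow]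
      field_simp
    · rw [coe_pt hl0, coe_pt (by positivity)]
      have := coe_S τ
      push_cast
      field_simp
      linear_combination (l : ℂ) * this
  have h3 : ((l : ℂ) ^ (2 * w) * f (pt l 0 (ModularGroup.S • τ))) * (τ : ℂ) ^ (-(2 * (w : ℤ))) = H 0 := by
    have h4 := hH1 0
    rw [Int.cast_zero] at h4
    rw [h4, tm, TH_S _ f (pt (1 / l) (2 * (0 : ℤ) / l) τ) (pt l 0 (ModularGroup.S • τ))]
    · rw [coe_pt (by positivity), show (2 * (w : ℤ)) = ((2 * w : ℕ) : ℤ) by push_cast; ring]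
      push_cast
      rw [mul_zero, zero_div, add_zero, show (2 * (w : ℤ)) = ((2 * w : ℕ) : ℤ) by push_cast; ring,
        zpow_neg, zpow_neg, zpow_natCast, zpow_natCast, mul_pow, one_div, inv_pow]
      field_simp
    · rw [coe_pt hl0, coe_pt (by positivity)]
      have := coe_S τ
      push_cast
      field_simp
      linear_combination (l : ℂ) * this
  rw [h3, ← Finset.add_sum_erase _ G (Finset.mem_univ 0), ← Finset.add_sum_erase _ H (Finset.mem_univ 0), h1, h2]
  ring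

/-- the expansion of `(T f)(l τ)` -/
theorem th_ser {l : ℕ} (hl : Pe l) {w : ℕ} {f : ℍ → ℂ} {F : ℂ⟦X⟧} (hF : Ser f F) :
    Ser (fun τ => THf l w f (pt l 0 τ))
      (∑ b : Fin l, PowerSeries.rescale (Complex.exp (2 * Real.pi * Complex.I * (b : ℕ) / l)) F +
        ((l : ℂ) ^ (2 * w)) • V (l ^ 2) F) := by
  have hl0 := TH_pos hl
  have h1 : Ser (fun τ => ∑ b : Fin l, f (pt 1 (2 * (b : ℕ) / l) τ))
      (∑ b : Fin l, PowerSeries.rescale (Complex.exp (2 * Real.pi * Complex.I * (b : ℕ) / l)) F) := by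
    apply Ser.sum
    intro b _
    have := hF.shift (2 * (b : ℕ) / l)
    convert this using 3
    push_cast
    have : (l : ℂ) ≠ 0 := by exact_mod_cast hl.1.ne_zero
    field_simp
  have h2 : Ser (((l : ℂ) ^ (2 * w)) • fun τ => f (pt ((l ^ 2 : ℕ) : ℝ) 0 τ)) (((l : ℂ) ^ (2 * w)) • V (l ^ 2) F) :=
    (hF.scale (l ^ 2) (pow_pos hl.1.pos 2)).smul _
  have h3 := h1.add h2
  have h4 : (fun τ => THf l w f (pt l 0 τ)) = (fun τ => ∑ b : Fin l, f (pt 1 (2 * (b : ℕ) / l) τ)) +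
      (((l : ℂ) ^ (2 * w)) • fun τ => f (pt ((l ^ 2 : ℕ) : ℝ) 0 τ)) := by
    funext τ
    simp only [THf, Pi.add_apply, Pi.smul_apply, smul_eq_mul]
    rw [pt_pt hl0 hl0, Finset.sum_range]
    congr 1
    · refine Finset.sum_congr rfl fun b _ => ?_
      rw [pt_pt (by positivity) hl0]
      congr 2
      · field_simp
      · ring
    · congr 2
      · push_cast; ring_nf
  rw [h4]
  exact h3

private theorem th_ser' {l : ℕ} (hl : Pe l) {w : ℕ} {f : ℍ → ℂ} {F : ℂ⟦X⟧} (hF : Ser f F) :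
    ∃ G : ℂ⟦X⟧, Ser (THf l w f) G := by
  have hl0 := TH_pos hl
  have : NeZero l := ⟨hl.1.ne_zero⟩
  have hp := hF.per
  have he : THf l w f = (∑ b ∈ Finset.range l, fun τ => f (pt (1 / l) (2 * b / l) τ)) +
      ((l : ℂ) ^ (2 * w)) • fun τ => f (pt l 0 τ) := by
    funext τ
    simp [THf, Finset.sum_apply]
  apply ser_of
  · rw [he]
    refine MDifferentiable.add ?_ ?_
    · refine MDifferentiable.sum fun b _ => ?_
      exact mdiff_pt hF.mdiff (by positivity) _
    · exact MDifferentiable.const_smul _ (mdiff_pt hF.mdiff hl0 _)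
  · rw [he]
    refine Filter.BoundedAtFilter.add ?_ ?_
    · have : ∀ s : Finset ℕ, IsBoundedAtImInfty (∑ b ∈ s, fun τ => f (pt (1 / l) (2 * b / l) τ)) := by
        intro s
        induction s using Finset.induction_on with
        | empty => exact Filter.const_boundedAtFilter atImInfty (0 : ℂ)
        | insert a s ha ih =>
          rw [Finset.sum_insert ha]
          exact Filter.BoundedAtFilter.add (bdd_pt hF.bdd (by positivity) _) ih
      exact this _
    · exact Filter.BoundedAtFilter.smul _ (bdd_pt hF.bdd hl0 _)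
  · intro τ
    rw [th_eq, th_eq]
    congr 1
    · obtain ⟨G, hG1, hG2⟩ := TH_sum (l := l) (fun n => tm l f τ n) (fun n => tm_per hl0 hp τ n)
      rw [hG2]
      have h4 : ∑ b ∈ Finset.range l, tm l f (pt 1 2 τ) b = ∑ z : ZMod l, G (z + 1) := by
        refine Finset.sum_bij' (fun b _ => (b : ZMod l)) (fun z _ => z.val) ?_ ?_ ?_ ?_ ?_
        · intro b _; exact Finset.mem_univ _
        · intro z _; exact Finset.mem_range.2 (ZMod.val_lt z)
        · intro b hb; exact ZMod.val_cast_of_lt (Finset.mem_range.1 hb)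
        · intro z _; exact ZMod.natCast_zmod_val z
        · intro b _
          have h2 := hG1 ((b : ℤ) + 1)
          rw [show ((((b : ℤ) + 1 : ℤ)) : ZMod l) = ((b : ℕ) : ZMod l) + 1 by push_cast; rfl] at h2
          rw [h2, tm, tm, pt_pt (by positivity) one_pos]
          congr 2
          · norm_num
          · push_cast; field_simp; ring
      rw [h4]
      exact Equiv.sum_comp (Equiv.addRight (1 : ZMod l)) G
    · congr 1
      rw [pt_pt hl0 one_pos]
      have := TH_perk hp l (r := l) hl0 0 τ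
      rw [← this]
      congr 2
      · ring
      · push_cast; ring

private theorem th_slash {l : ℕ} (hl : Pe l) (w : ℕ) (g : SL(2, ℤ)) :
    ∀ h : ℍ → ℂ, MF (2 * (w : ℤ)) h →
      THf l w h ∣[2 * (w : ℤ)] g = THf l w (h ∣[2 * (w : ℤ)] g) := by
  have hg : g ∈ Subgroup.closure {ModularGroup.S, ModularGroup.T} := by
    rw [SpecialLinearGroup.SL2Z_generators]; exact Subgroup.mem_top g
  induction hg using Subgroup.closure_induction with
  | mem x hx =>
    rcases hx with rfl | hx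
    · exact fun h hh => th_S hl hh
    · rw [Set.mem_singleton_iff] at hx
      subst hx
      exact fun h hh => th_T hl hh
  | one => exact fun h _ => by simp
  | mul x y _ _ hx hy =>
    intro h hh
    rw [SlashAction.slash_mul, hx h hh, hy _ (hh.slash x), SlashAction.slash_mul]
  | inv x _ hx =>
    intro h hh
    have h2 := hx (h ∣[2 * (w : ℤ)] x⁻¹) (hh.slash _)
    rw [← SlashAction.slash_mul, inv_mul_cancel, SlashAction.slash_one] at h2
    rw [← h2, ← SlashAction.slash_mul, mul_inv_cancel, SlashAction.slash_one]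

theorem mf_TH {l : ℕ} (hl : Pe l) {w : ℕ} {f : ℍ → ℂ} (hf : MF (2 * (w : ℤ)) f) :
    MF (2 * (w : ℤ)) (THf l w f) := by
  intro g
  obtain ⟨F, hF⟩ := (hf.slash g).ser
  obtain ⟨G, hG⟩ := th_ser' (w := w) hl hF
  rw [th_slash hl w g f hf]
  exact ⟨G, hG⟩

/-- the Hecke operators commute with the action of `SL(2, ℤ)` -/
theorem th_comm {l : ℕ} (hl : Pe l) {w : ℕ} {f : ℍ → ℂ} (hf : MF (2 * (w : ℤ)) f) (g : SL(2, ℤ)) :
    THf l w f ∣[2 * (w : ℤ)] g = THf l w (f ∣[2 * (w : ℤ)] g) := th_slash hl w g f hf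

end Pool.Agent.Lib.MP_06b9d2_tl2.An
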