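import Pool.Agent.Lib.MP_06b9d2_tl2.An.MFa

/-!
Module TL2-A-Th2: `f(τ/2)` for the forms invariant under `T`.
-/

namespace Pool.Agent.Lib.MP_06b9d2_tl2.An

open UpperHalfPlane hiding I
open Complex ModularForm PowerSeries Filter
open scoped Real MatrixGroups Manifold Topology
open Pool.Agent.Lib.MP_06b9d2_tls (V U)
open Pool.Agent.Lib.MP_06b9d2_tls.An (pt Pz Vz coe_pt pt_pt pt_one_zero mdiff_pt bdd_pt)

private theorem th2_T {k : ℤ} {f : ℍ → ℂ} (hT : f ∣[k] ModularGroup.T = f) (τ : ℍ) :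
    f (pt 1 1 τ) = f τ := by
  have h := slash_T1 k f
  rw [hT] at h
  exact (congrFun h τ).symm

private theorem th2_shift {k : ℤ} {f : ℍ → ℂ} (hT : f ∣[k] ModularGroup.T = f) (t : ℝ) (τ : ℍ) :
    f (pt (1 / 2) (t + 1) τ) = f (pt (1 / 2) t τ) := by
  rw [← th2_T hT (pt (1 / 2) t τ), pt_pt (by norm_num) (by norm_num)]
  norm_num

/-- the point `τ ↦ (τ + t) / 2` -/
private theorem th2_ser {k : ℤ} {f : ℍ → ℂ} (hf : MF k f) (hT : f ∣[k] ModularGroup.T = f) (t : ℝ) :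
    ∃ F : ℂ⟦X⟧, Ser (fun τ => f (pt (1 / 2) t τ)) F := by
  obtain ⟨F, hF⟩ := hf.ser
  refine ser_of (mdiff_pt hF.mdiff (by norm_num) t) (bdd_pt hF.bdd (by norm_num) t) ?_
  intro τ
  show f (pt (1 / 2) t (pt 1 2 τ)) = f (pt (1 / 2) t τ)
  rw [pt_pt (by norm_num) (by norm_num), ← th2_shift hT t τ]
  have e1 : (1 / 2 * 1 : ℝ) = 1 / 2 := by norm_num
  have e2 : (1 / 2 * 2 + t : ℝ) = t + 1 := by ring
  rw [e1, e2]

private theorem th2_sT {k : ℤ} {f : ℍ → ℂ} (t : ℝ) :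
    (fun τ => f (pt (1 / 2) t τ)) ∣[k] ModularGroup.T = fun τ => f (pt (1 / 2) (t + 1 / 2) τ) := by
  rw [slash_T1]
  funext τ
  show f (pt (1 / 2) t (pt 1 1 τ)) = _
  rw [pt_pt (by norm_num) (by norm_num)]
  have e1 : (1 / 2 * 1 : ℝ) = 1 / 2 := by norm_num
  have e2 : (1 / 2 + t : ℝ) = t + 1 / 2 := by ring
  rw [e1, e2]

private theorem th2_gT {k : ℤ} {h : ℍ → ℂ} (hh : ∃ F : ℂ⟦X⟧, Ser h F) :
    (fun τ => h (pt 2 0 τ)) ∣[k] ModularGroup.T = fun τ => h (pt 2 0 τ) := by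
  obtain ⟨F, hF⟩ := hh
  rw [slash_T1]
  funext τ
  show h (pt 2 0 (pt 1 1 τ)) = _
  have h2 := hF.per (pt 2 0 τ)
  rw [← h2, pt_pt (by norm_num) (by norm_num), pt_pt (by norm_num) (by norm_num)]
  have e1 : (2 * 1 : ℝ) = 2 := by norm_num
  have e2 : (2 + 0 : ℝ) = 2 := by norm_num
  have e3 : (1 * 2 : ℝ) = 2 := by norm_num
  have e4 : (1 * 0 + 2 : ℝ) = 2 := by norm_num
  rw [e1, e2, e3, e4]

/-- `f(-1 / (2 τ))` -/
private theorem th2_S0 {k : ℤ} {f : ℍ → ℂ} :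
    (fun τ => f (pt (1 / 2) 0 τ)) ∣[k] ModularGroup.S =
      ((2 : ℂ) ^ k) • fun τ => (f ∣[k] ModularGroup.S) (pt 2 0 τ) := by
  funext τ
  rw [SL_slash_apply, ModularGroup.denom_S]
  show f (pt (1 / 2) 0 (ModularGroup.S • τ)) * (τ : ℂ) ^ (-k) =
    (2 : ℂ) ^ k * (f ∣[k] ModularGroup.S) (pt 2 0 τ)
  rw [SL_slash_apply, ModularGroup.denom_S, coe_pt (by norm_num)]
  have e : pt (1 / 2) 0 (ModularGroup.S • τ) = ModularGroup.S • pt 2 0 τ := by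
    apply UpperHalfPlane.ext
    rw [coe_pt (by norm_num), UpperHalfPlane.modular_S_smul, UpperHalfPlane.modular_S_smul]
    show ((1 / 2 : ℝ) : ℂ) * (-(τ : ℂ))⁻¹ + ((0 : ℝ) : ℂ) = (-((pt 2 0 τ : ℍ) : ℂ))⁻¹
    rw [coe_pt (by norm_num)]
    push_cast
    rw [add_zero, add_zero, ← mul_neg, mul_inv]
    norm_num
  rw [e]
  push_cast
  rw [add_zero, mul_zpow, zpow_neg (2 : ℂ)]
  have h3 : (2 : ℂ) ^ k ≠ 0 := zpow_ne_zero _ (by norm_num)
  field_simp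

/-- the matrix of the substitution -/
private def th2M : SL(2, ℤ) := ⟨!![1, -1; 2, -1], by rw [Matrix.det_fin_two_of]; norm_num⟩

private theorem th2_M {k : ℤ} (hk : Even k) {f : ℍ → ℂ} (hf : MF k f) (hT : f ∣[k] ModularGroup.T = f) :
    f ∣[k] th2M = f := by
  have hmem : th2M * ModularGroup.T ∈ Nn ∨ -(th2M * ModularGroup.T) ∈ Nn := by
    have e : ∀ i j, (th2M * ModularGroup.T).1 i j = (!![1, 0; 2, 1] : Matrix (Fin 2) (Fin 2) ℤ) i j := by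
      intro i j
      rw [Matrix.SpecialLinearGroup.coe_mul, ModularGroup.coe_T]
      fin_cases i <;> fin_cases j <;> simp [th2M, Matrix.mul_apply, Fin.sum_univ_two]
    refine mem_Nn _ ?_ ?_ ?_ ?_ <;> rw [e] <;> norm_num
  have h1 := hf.inv2 hk _ hmem
  rw [SlashAction.slash_mul] at h1
  have h2 : (f ∣[k] th2M) ∣[k] (ModularGroup.T * ModularGroup.T⁻¹) =
      f ∣[k] ModularGroup.T⁻¹ := by
    rw [SlashAction.slash_mul, h1]
  have h3 : f ∣[k] ModularGroup.T⁻¹ = f := by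
    have h4 : (f ∣[k] ModularGroup.T) ∣[k] ModularGroup.T⁻¹ = f := by
      rw [← SlashAction.slash_mul, mul_inv_cancel, SlashAction.slash_one]
    rwa [hT] at h4
  rw [mul_inv_cancel, SlashAction.slash_one, h3] at h2
  exact h2

/-- `f((-1 / τ + 1) / 2)` -/
private theorem th2_S1 {k : ℤ} (hk : Even k) {f : ℍ → ℂ} (hf : MF k f) (hT : f ∣[k] ModularGroup.T = f) :
    (fun τ => f (pt (1 / 2) (1 / 2) τ)) ∣[k] ModularGroup.S =
      fun τ => f (pt (1 / 2) (1 / 2) τ) := by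
  funext τ
  rw [SL_slash_apply, ModularGroup.denom_S]
  show f (pt (1 / 2) (1 / 2) (ModularGroup.S • τ)) * (τ : ℂ) ^ (-k) = _
  have hz : ((pt (1 / 2) (1 / 2) τ : ℍ) : ℂ) = ((τ : ℂ) + 1) / 2 := by
    rw [coe_pt (by norm_num)]
    push_cast
    ring
  have h1 : (th2M.1 0 0 : ℤ) = 1 := rfl
  have h2 : (th2M.1 0 1 : ℤ) = -1 := rfl
  have h3 : (th2M.1 1 0 : ℤ) = 2 := rfl
  have h4 : (th2M.1 1 1 : ℤ) = -1 := rfl
  have hτ : (τ : ℂ) ≠ 0 := UpperHalfPlane.ne_zero τ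
  have hd : denom th2M (pt (1 / 2) (1 / 2) τ) = (τ : ℂ) := by
    rw [ModularGroup.denom_apply, hz, h3, h4]
    push_cast
    ring
  have e : pt (1 / 2) (1 / 2) (ModularGroup.S • τ) = th2M • pt (1 / 2) (1 / 2) τ := by
    apply UpperHalfPlane.ext
    rw [coe_pt (by norm_num), UpperHalfPlane.modular_S_smul, UpperHalfPlane.coe_specialLinearGroup_apply]
    show ((1 / 2 : ℝ) : ℂ) * (-(τ : ℂ))⁻¹ + ((1 / 2 : ℝ) : ℂ) = _
    rw [hz, h1, h2, h3, h4]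
    have k1 : (((algebraMap ℤ ℝ) 1 : ℝ) : ℂ) = 1 := by simp
    have k2 : (((algebraMap ℤ ℝ) (-1) : ℝ) : ℂ) = -1 := by simp
    have k3 : (((algebraMap ℤ ℝ) 2 : ℝ) : ℂ) = 2 := by simp
    rw [k1, k2, k3]
    push_cast
    have e5 : (2 : ℂ) * (((τ : ℂ) + 1) / 2) + -1 = (τ : ℂ) := by ring
    rw [e5]
    field_simp
    ring
  rw [e]
  have h5 := congrFun (th2_M hk hf hT) (pt (1 / 2) (1 / 2) τ)
  rw [SL_slash_apply, hd] at h5
  exact h5

private theorem th2_cS {k : ℤ} (c : ℂ) (h : ℍ → ℂ) (g : SL(2, ℤ)) :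
    (c • h) ∣[k] g = c • (h ∣[k] g) := SL_smul_slash _ _ _ _

private theorem th2_SS {k : ℤ} (hk : Even k) (h : ℍ → ℂ) :
    (h ∣[k] ModularGroup.S) ∣[k] ModularGroup.S = h := by
  have hS : ModularGroup.S * ModularGroup.S = -1 := by
    ext i j
    fin_cases i <;> fin_cases j <;> simp [ModularGroup.S, Matrix.mul_apply, Fin.sum_univ_two]
  rw [← SlashAction.slash_mul, hS, slash_neg' hk, SlashAction.slash_one]

theorem mf_half {k : ℤ} (hk : Even k) {f : ℍ → ℂ} (hf : MF k f) (hT : f ∣[k] ModularGroup.T = f) :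
    MF k (fun τ => f (pt (1 / 2) 0 τ)) := by
  -- the three functions
  obtain ⟨a0, ha0⟩ : ∃ a : ℍ → ℂ, a = fun τ => f (pt (1 / 2) 0 τ) := ⟨_, rfl⟩
  obtain ⟨a1, ha1⟩ : ∃ a : ℍ → ℂ, a = fun τ => f (pt (1 / 2) (1 / 2) τ) := ⟨_, rfl⟩
  obtain ⟨g0, hg0⟩ : ∃ a : ℍ → ℂ, a = fun τ => (f ∣[k] ModularGroup.S) (pt 2 0 τ) := ⟨_, rfl⟩
  have hc : (2 : ℂ) ^ k ≠ 0 := zpow_ne_zero _ (by norm_num)
  have hT0 : a0 ∣[k] ModularGroup.T = a1 := by
    rw [ha0, th2_sT, ha1]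
    norm_num
  have hT1 : a1 ∣[k] ModularGroup.T = a0 := by
    rw [ha1, th2_sT, ha0]
    funext τ
    have e : (1 / 2 + 1 / 2 : ℝ) = 0 + 1 := by norm_num
    rw [e, th2_shift hT]
  have hTg : g0 ∣[k] ModularGroup.T = g0 := by
    rw [hg0]
    exact th2_gT (hf ModularGroup.S)
  have hS0 : a0 ∣[k] ModularGroup.S = ((2 : ℂ) ^ k) • g0 := by
    rw [ha0, hg0]
    exact th2_S0
  have hS1 : a1 ∣[k] ModularGroup.S = a1 := by
    rw [ha1]
    exact th2_S1 hk hf hT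
  have hSg : g0 ∣[k] ModularGroup.S = (((2 : ℂ) ^ k)⁻¹) • a0 := by
    have h1 := th2_SS hk a0
    rw [hS0, th2_cS] at h1
    rw [← h1, smul_smul, inv_mul_cancel₀ hc, one_smul]
  -- the stable set
  obtain ⟨W, hW⟩ : ∃ W : Set (ℍ → ℂ), W = {h | ∃ c : ℂ, h = c • a0 ∨ h = c • a1 ∨ h = c • g0} :=
    ⟨_, rfl⟩
  have hWT : ∀ h ∈ W, h ∣[k] ModularGroup.T ∈ W := by
    rw [hW]
    rintro h ⟨c, rfl | rfl | rfl⟩
    · exact ⟨c, Or.inr (Or.inl (by rw [th2_cS, hT0]))⟩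
    · exact ⟨c, Or.inl (by rw [th2_cS, hT1])⟩
    · exact ⟨c, Or.inr (Or.inr (by rw [th2_cS, hTg]))⟩
  have hWS : ∀ h ∈ W, h ∣[k] ModularGroup.S ∈ W := by
    rw [hW]
    rintro h ⟨c, rfl | rfl | rfl⟩
    · exact ⟨c * (2 : ℂ) ^ k, Or.inr (Or.inr (by rw [th2_cS, hS0, smul_smul]))⟩
    · exact ⟨c, Or.inr (Or.inl (by rw [th2_cS, hS1]))⟩
    · exact ⟨c * (((2 : ℂ) ^ k)⁻¹), Or.inl (by rw [th2_cS, hSg, smul_smul])⟩
  have hWT2 : ∀ h ∈ W, h ∣[k] (ModularGroup.T * ModularGroup.T) = h := by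
    rw [hW]
    rintro h ⟨c, rfl | rfl | rfl⟩
    · rw [th2_cS, SlashAction.slash_mul, hT0, hT1]
    · rw [th2_cS, SlashAction.slash_mul, hT1, hT0]
    · rw [th2_cS, SlashAction.slash_mul, hTg, hTg]
  have hWTi : ∀ h ∈ W, h ∣[k] ModularGroup.T⁻¹ ∈ W := by
    intro h hh
    have h1 : h ∣[k] ModularGroup.T⁻¹ = h ∣[k] ModularGroup.T := by
      conv_lhs => rw [← hWT2 h hh]
      rw [← SlashAction.slash_mul, mul_inv_cancel_right]
    rw [h1]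
    exact hWT _ hh
  have hWSi : ∀ h ∈ W, h ∣[k] ModularGroup.S⁻¹ ∈ W := by
    intro h hh
    have hS : ModularGroup.S⁻¹ = -ModularGroup.S := by
      rw [_root_.inv_eq_iff_mul_eq_one]
      ext i j
      fin_cases i <;> fin_cases j <;> simp [ModularGroup.S]
    rw [hS, slash_neg' hk]
    exact hWS _ hh
  have hall : ∀ g : SL(2, ℤ), ∀ h ∈ W, h ∣[k] g ∈ W := by
    intro g
    have hg : g ∈ Subgroup.closure {ModularGroup.S, ModularGroup.T} := by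
      rw [SpecialLinearGroup.SL2Z_generators]
      trivial
    induction hg using Subgroup.closure_induction'' with
    | mem x hx =>
      rcases hx with rfl | rfl
      · exact hWS
      · exact hWT
    | inv_mem x hx =>
      rcases hx with rfl | rfl
      · exact hWSi
      · exact hWTi
    | one =>
      intro h hh
      rwa [SlashAction.slash_one]
    | mul x y _ _ hx hy =>
      intro h hh
      rw [SlashAction.slash_mul]
      exact hy _ (hx _ hh)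
  have hser : ∀ h ∈ W, ∃ F : ℂ⟦X⟧, Ser h F := by
    rw [hW]
    rintro h ⟨c, rfl | rfl | rfl⟩
    · obtain ⟨F, hF⟩ := th2_ser hf hT 0
      rw [ha0]
      exact ⟨_, hF.smul c⟩
    · obtain ⟨F, hF⟩ := th2_ser hf hT (1 / 2)
      rw [ha1]
      exact ⟨_, hF.smul c⟩
    · obtain ⟨F, hF⟩ := hf ModularGroup.S
      have h2 := (hF.scale 2 (by norm_num)).smul c
      rw [hg0]
      refine ⟨c • V 2 F, ?_⟩
      have e3 : ((2 : ℕ) : ℝ) = 2 := by norm_num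
      rw [e3] at h2
      exact h2
  intro g
  rw [← ha0]
  refine hser _ (hall g a0 ?_)
  rw [hW]
  exact ⟨1, Or.inl (one_smul _ _).symm⟩

end Pool.Agent.Lib.MP_06b9d2_tl2.An
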