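import Pool.Agent.Lib.MP_06b9d2_tl2.An.MFa

/-!
Module TL2-A-W0: forms of weight `0` are constant; division by `Y`; `Z = X + 2 Y`; evenness of `A`.
-/

namespace Pool.Agent.Lib.MP_06b9d2_tl2.An

open UpperHalfPlane hiding I
open Complex ModularForm PowerSeries Filter
open scoped Real MatrixGroups Manifold Topology
open Pool.Agent.Lib.MP_06b9d2_tls (V U)
open Pool.Agent.Lib.MP_06b9d2_tls.An (pt Pz Vz coe_pt pt_pt pt_one_zero)

theorem mf_zero {f : ℍ → ℂ} (hf : MF 0 f) : ∃ c : ℂ, f = fun _ => c := by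
  obtain ⟨F0, hF0⟩ := hf.ser
  have h := ModularForm.eq_const_of_weight_zero
    (𝒢 := (CongruenceSubgroup.Gamma 2).map (Matrix.SpecialLinearGroup.mapGL ℝ))
    { toFun := f
      slash_action_eq' := by
        rintro _ ⟨n, hn, rfl⟩
        have h1 := CongruenceSubgroup.Gamma_mem.1 hn
        have hd : ∀ a b : ℤ, ((a : ℤ) : ZMod 2) = ((b : ℤ) : ZMod 2) → (2 : ℤ) ∣ a - b := by
          intro a b hab
          exact (ZMod.intCast_eq_intCast_iff_dvd_sub b a 2).1 hab.symm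
        refine hf.inv2 (by decide) n (mem_Nn n ?_ ?_ ?_ ?_)
        · exact hd _ 1 (by simpa using h1.1)
        · simpa using hd _ 0 (by simpa using h1.2.1)
        · simpa using hd _ 0 (by simpa using h1.2.2.1)
        · exact hd _ 1 (by simpa using h1.2.2.2)
      holo' := hF0.mdiff
      bdd_at_cusps' := by
        intro c hc
        rw [Subgroup.IsArithmetic.isCusp_iff_isCusp_SL2Z] at hc
        rw [OnePoint.isBoundedAt_iff_forall_SL2Z hc]
        intro g _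
        obtain ⟨G, hG⟩ := hf g
        exact hG.bdd }
  obtain ⟨c, hc⟩ := h
  exact ⟨c, hc⟩

theorem Yf_T_pow (a : ℕ) : Yf ∣[(2 : ℤ)] (ModularGroup.T ^ a) = ((-1 : ℂ) ^ a) • Yf := by
  induction a with
  | zero => rw [pow_zero, pow_zero, SlashAction.slash_one, one_smul]
  | succ a ih =>
    rw [pow_succ, SlashAction.slash_mul, ih, ModularForm.SL_smul_slash, Y_T, smul_smul, pow_succ]

theorem const_Xz : constantCoeff (PowerSeries.map (Int.castRingHom ℂ) Xz) = 1 := by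
  rw [← PowerSeries.coeff_zero_eq_constantCoeff_apply, PowerSeries.coeff_map,
    PowerSeries.coeff_zero_eq_constantCoeff_apply, Xz_const]
  simp

theorem coeff_Yq (n : ℕ) : coeff n Yq = 8 * ((coeff n Kz : ℤ) : ℂ) := by
  unfold Yq
  rw [PowerSeries.coeff_map, eight_K, map_mul]
  simp

theorem const_rescale (c : ℂ) (F : ℂ⟦X⟧) :
    constantCoeff (PowerSeries.rescale c F) = constantCoeff F := by
  rw [← PowerSeries.coeff_zero_eq_constantCoeff_apply, PowerSeries.coeff_rescale, pow_zero,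
    one_mul, PowerSeries.coeff_zero_eq_constantCoeff_apply]

theorem const_smul (c : ℂ) (F : ℂ⟦X⟧) :
    constantCoeff (c • F) = c * constantCoeff F := by
  rw [← PowerSeries.coeff_zero_eq_constantCoeff_apply, PowerSeries.coeff_smul,
    PowerSeries.coeff_zero_eq_constantCoeff_apply]
  rfl

/-- the representatives `T ^ a` -/
private theorem rep1 {k : ℤ} {h : ℍ → ℂ} {H : ℂ⟦X⟧} (hH : Ser h H)
    (h0 : constantCoeff H = 0) (a : ℕ) :
    ∃ G : ℂ⟦X⟧, Ser ((h ∣[k] (ModularGroup.T ^ a)) /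
      (Yf ∣[(2 : ℤ)] (ModularGroup.T ^ a))) G := by
  have e1 : (h ∣[k] (ModularGroup.T ^ a)) = fun τ => h (pt 1 ((a : ℤ) : ℝ) τ) := by
    rw [← zpow_natCast, slash_T]
  have s1 := hH.shift ((a : ℤ) : ℝ)
  rw [← e1] at s1
  have s2 : Ser (Yf ∣[(2 : ℤ)] (ModularGroup.T ^ a)) (((-1 : ℂ) ^ a) • Yq) := by
    rw [Yf_T_pow]
    exact ser_Y.smul _
  have hm : ((-1 : ℂ) ^ a) ≠ 0 := pow_ne_zero _ (by norm_num)
  refine s1.div0 ?_ s2 ?_ ?_
  · rw [const_rescale, h0]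
  · intro τ
    rw [Yf_T_pow]
    exact mul_ne_zero hm (Yf_ne τ)
  · rw [PowerSeries.coeff_smul, coeff_Yq, Kz_one]
    exact mul_ne_zero hm (by norm_num)

/-- the representatives `T ^ a S T ^ b` -/
private theorem rep2 {k : ℤ} {h : ℍ → ℂ} (hh : MF k h) (a b : ℕ) :
    ∃ G : ℂ⟦X⟧, Ser ((h ∣[k] (ModularGroup.T ^ a * ModularGroup.S * ModularGroup.T ^ b)) /
      (Yf ∣[(2 : ℤ)] (ModularGroup.T ^ a * ModularGroup.S * ModularGroup.T ^ b))) G := by
  obtain ⟨F, hF⟩ := hh (ModularGroup.T ^ a * ModularGroup.S * ModularGroup.T ^ b)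
  have e1 : Yf ∣[(2 : ℤ)] (ModularGroup.T ^ a * ModularGroup.S * ModularGroup.T ^ b)
      = ((-1) ^ a * (-(1 / 2)) : ℂ) • (fun τ => Xf (pt 1 ((b : ℤ) : ℝ) τ)) := by
    rw [SlashAction.slash_mul, SlashAction.slash_mul, Yf_T_pow, ModularForm.SL_smul_slash, Y_S,
      smul_smul, ModularForm.SL_smul_slash, ← zpow_natCast ModularGroup.T b, slash_T]
  have s2 := (ser_X.shift ((b : ℤ) : ℝ)).smul ((-1) ^ a * (-(1 / 2)) : ℂ)
  rw [← e1] at s2
  have hc : ((-1) ^ a * (-(1 / 2)) : ℂ) ≠ 0 :=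
    mul_ne_zero (pow_ne_zero _ (by norm_num)) (by norm_num)
  refine hF.div1 s2 ?_ ?_
  · intro τ
    rw [e1]
    exact mul_ne_zero hc (Xf_ne _)
  · rw [const_smul, const_rescale, const_Xz, mul_one]
    exact hc

theorem mf_div {k : ℤ} (hk : Even k) {h : ℍ → ℂ} {H : ℂ⟦X⟧} (hh : MF (k + 2) h) (hH : Ser h H)
    (h0 : constantCoeff H = 0) : MF k (h / Yf) := by
  have hk2 : Even (k + 2) := hk.add (by decide)
  intro g
  have e0 : (h / Yf) ∣[k] g = (h ∣[k + 2] g) / (Yf ∣[(2 : ℤ)] g) := by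
    have h1 := ModularForm.div_slash_SL2 (k + 2) 2 g h Yf
    rwa [add_sub_cancel_right] at h1
  rw [e0]
  obtain ⟨n, hn, a, b, -, -, hg⟩ := sl2_cases g
  have e1 : ∀ r : SL(2, ℤ), g = n * r → (h ∣[k + 2] g) / (Yf ∣[(2 : ℤ)] g)
      = (h ∣[k + 2] r) / (Yf ∣[(2 : ℤ)] r) := by
    intro r hr
    rw [hr, SlashAction.slash_mul, SlashAction.slash_mul, hh.inv n hn, mf_Y.inv n hn]
  rcases hg with hg | hg | hg | hg
  · rw [e1 _ hg]
    exact rep1 hH h0 a
  · rw [e1 _ hg, slash_neg' hk2, slash_neg' (by decide)]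
    exact rep1 hH h0 a
  · rw [e1 _ hg]
    exact rep2 hh a b
  · rw [e1 _ hg, slash_neg' hk2, slash_neg' (by decide)]
    exact rep2 hh a b

/-- the Jacobi identity `θ₃ ^ 4 = θ₄ ^ 4 + θ₂ ^ 4` -/
theorem Z_eq : Zf = Xf + (2 : ℂ) • Yf := by
  have h1 : MF (0 + 2) (Zf + (-1 : ℂ) • Xf) := by
    rw [zero_add]
    exact mf_Z.add (mf_X.smul (-1))
  have h2 := ser_Z.add (ser_X.smul (-1))
  obtain ⟨c, hc⟩ := mf_zero (mf_div (by decide) h1 h2 (by
    rw [map_add, const_smul, const_rescale, const_Xz]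
    norm_num))
  have h3 : Zf + (-1 : ℂ) • Xf = c • Yf := by
    funext τ
    have h4 := congrFun hc τ
    rw [Pi.div_apply, div_eq_iff (Yf_ne τ)] at h4
    exact h4
  have h5 : Ser (c • Yf) (c • Yq) := ser_Y.smul c
  rw [← h3] at h5
  have h6 := congrArg (coeff 1) (h2.unique h5)
  rw [map_add, coeff_smul, coeff_smul, coeff_rescale, coeff_map, Xz_cf.2.1, coeff_Yq, Kz_one] at h6
  have h7 : c = 2 := by
    simp only [eq_intCast, smul_eq_mul] at h6
    norm_num at h6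
    linear_combination (-1 / 8) * h6
  rw [h7] at h3
  rw [← h3]
  funext τ
  simp

theorem A_T : Af ∣[(2 : ℤ)] ModularGroup.T = Af := by
  have h : Af = Xf + Yf := rfl
  rw [h, SlashAction.add_slash, X_T, Y_T, Z_eq]
  funext τ
  simp only [Pi.add_apply, Pi.smul_apply, smul_eq_mul]
  ring

theorem A_S : Af ∣[(2 : ℤ)] ModularGroup.S = (-(1 / 2) : ℂ) • (Af + (3 : ℂ) • Yf) := by
  have h : Af = Xf + Yf := rfl
  rw [h, SlashAction.add_slash, X_S, Y_S]
  funext τ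
  simp only [Pi.add_apply, Pi.smul_apply, smul_eq_mul]
  ring

theorem Y_S' : Yf ∣[(2 : ℤ)] ModularGroup.S = (-(1 / 2) : ℂ) • (Af + (-1 : ℂ) • Yf) := by
  have h : Af = Xf + Yf := rfl
  rw [h, Y_S]
  funext τ
  simp only [Pi.add_apply, Pi.smul_apply, smul_eq_mul]
  ring

/-- `A` is even -/
theorem Az_gr (n : ℕ) (hn : n % 2 ≠ 0) : coeff n (Xz + 8 * Kz) = 0 := by
  have h := ser_A.shift 1
  rw [exp_half, ← slash_T1 2, A_T] at h
  have h1 := congrArg (coeff n) (h.unique ser_A)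
  have hn' : Odd n := Nat.odd_iff.2 (by omega)
  rw [coeff_rescale, hn'.neg_one_pow, Aq, coeff_map] at h1
  have h2 : ((coeff n (Xz + 8 * Kz) : ℤ) : ℂ) = 0 := by
    simp only [eq_intCast] at h1
    linear_combination (-1 / 2) * h1
  exact_mod_cast h2

end Pool.Agent.Lib.MP_06b9d2_tl2.An
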