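import Pool.Agent.Lib.MP_06b9d2_tl2.An.SerB
import Pool.Agent.Lib.MP_06b9d2_tl2.An.Fml
import Pool.Agent.Lib.MP_06b9d2_tls.An.Pent

/-!
Module TL2-A-XY: expansions of `X` and `Y`, no zeros, and the transformation `τ ↦ -1/τ`.
-/

namespace Pool.Agent.Lib.MP_06b9d2_tl2.An

open UpperHalfPlane hiding I
open Complex ModularForm PowerSeries Filter
open scoped Real MatrixGroups Manifold Topology
open Pool.Agent.Lib.MP_06b9d2_tls (V U)
open Pool.Agent.Lib.MP_06b9d2_tls.An (pt Pz Vz coe_pt pt_pt pt_one_zero pent_hasSum)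

/-- the product `∏ (1 - x ^ n)` -/
noncomputable def Pf (τ : ℍ) : ℂ := ∏' n : ℕ, (1 - xq τ ^ (n + 1))

theorem ser_P : Ser Pf (PowerSeries.map (Int.castRingHom ℂ) Pz) := fun τ =>
  pent_hasSum (xq τ) (norm_xq τ)

private theorem eta_Pf (z : ℂ) (σ : ℍ) (h : (σ : ℂ) = 2 * z) :
    ModularForm.eta z = Function.Periodic.qParam 24 z * Pf σ := by
  have h1 : Function.Periodic.qParam 1 z = xq σ := by
    rw [xq_eq, h, Function.Periodic.qParam]
    congr 1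
    push_cast
    ring
  rw [ModularForm.eta, Pf, ← h1]

theorem Pf_ne (τ : ℍ) : Pf τ ≠ 0 := by
  have hz : ((τ : ℂ) / 2) ∈ upperHalfPlaneSet := by
    show 0 < ((τ : ℂ) / 2).im
    have := τ.im_pos
    simpa using this
  have h1 : Function.Periodic.qParam 1 ((τ : ℂ) / 2) = xq τ := by
    rw [xq_eq, Function.Periodic.qParam]
    congr 1
    push_cast
    ring
  have h := ModularForm.eta_tprod_ne_zero hz
  rw [Pf]
  simpa only [ModularForm.eta_q, h1] using h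

private theorem e_half (τ : ℍ) : ModularForm.eta ((τ : ℂ) / 2) =
    Function.Periodic.qParam 24 ((τ : ℂ) / 2) * Pf τ := by
  apply eta_Pf
  ring

private theorem e_one (τ : ℍ) : ModularForm.eta (τ : ℂ) =
    Function.Periodic.qParam 24 (τ : ℂ) * Pf (pt 2 0 τ) := by
  apply eta_Pf
  rw [coe_pt (by norm_num)]
  push_cast
  ring

private theorem e_two (τ : ℍ) : ModularForm.eta (2 * (τ : ℂ)) =
    Function.Periodic.qParam 24 (2 * (τ : ℂ)) * Pf (pt 4 0 τ) := by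
  apply eta_Pf
  rw [coe_pt (by norm_num)]
  push_cast
  ring

private theorem q1 (τ : ℍ) : Function.Periodic.qParam 24 ((τ : ℂ) / 2) ^ 8 =
    Function.Periodic.qParam 24 (τ : ℂ) ^ 4 := by
  rw [Function.Periodic.qParam, Function.Periodic.qParam, ← Complex.exp_nat_mul, ← Complex.exp_nat_mul]
  congr 1
  push_cast
  ring

private theorem q2 (τ : ℍ) : Function.Periodic.qParam 24 (2 * (τ : ℂ)) ^ 8 =
    xq τ * Function.Periodic.qParam 24 (τ : ℂ) ^ 4 := by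
  rw [xq_eq, Function.Periodic.qParam, Function.Periodic.qParam, ← Complex.exp_nat_mul,
    ← Complex.exp_nat_mul, ← Complex.exp_add]
  congr 1
  push_cast
  ring

theorem Xf_eq (τ : ℍ) : Xf τ = Pf τ ^ 8 * (Pf (pt 2 0 τ))⁻¹ ^ 4 := by
  have h0 : Function.Periodic.qParam 24 (τ : ℂ) ≠ 0 := Function.Periodic.qParam_ne_zero _
  have h1 := Pf_ne (pt 2 0 τ)
  rw [Xf, e_half, e_one, mul_pow, mul_pow, q1]
  field_simp

theorem Yf_eq (τ : ℍ) : Yf τ = 8 * (xq τ * Pf (pt 4 0 τ) ^ 8 * (Pf (pt 2 0 τ))⁻¹ ^ 4) := by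
  have h0 : Function.Periodic.qParam 24 (τ : ℂ) ≠ 0 := Function.Periodic.qParam_ne_zero _
  have h1 := Pf_ne (pt 2 0 τ)
  rw [Yf, e_two, e_one, mul_pow, mul_pow, q2]
  field_simp

theorem Xf_ne (τ : ℍ) : Xf τ ≠ 0 := by
  rw [Xf_eq]
  exact mul_ne_zero (pow_ne_zero _ (Pf_ne _)) (pow_ne_zero _ (inv_ne_zero (Pf_ne _)))

theorem Yf_ne (τ : ℍ) : Yf τ ≠ 0 := by
  rw [Yf_eq]
  exact mul_ne_zero (by norm_num) (mul_ne_zero (mul_ne_zero (xq_ne_zero τ) (pow_ne_zero _ (Pf_ne _)))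
    (pow_ne_zero _ (inv_ne_zero (Pf_ne _))))

private theorem ser_P2 : Ser (fun τ => Pf (pt 2 0 τ)) (V 2 (PowerSeries.map (Int.castRingHom ℂ) Pz)) := by
  have := ser_P.scale 2 (by norm_num)
  simpa using this

private theorem ser_P4 : Ser (fun τ => Pf (pt 4 0 τ)) (V 4 (PowerSeries.map (Int.castRingHom ℂ) Pz)) := by
  have := ser_P.scale 4 (by norm_num)
  simpa using this

private theorem ser_R : Ser (fun τ => (Pf (pt 2 0 τ))⁻¹) (PowerSeries.map (Int.castRingHom ℂ) Rz) := by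
  have hc : constantCoeff (V 2 (PowerSeries.map (Int.castRingHom ℂ) Pz)) = 1 := by
    rw [← map_Vz, ← coeff_zero_eq_constantCoeff_apply, coeff_map, coeff_zero_eq_constantCoeff_apply,
      V2P_const, map_one]
  have h1 : Ser (fun _ => (1 : ℂ)) (PowerSeries.C 1) := Ser.const 1
  obtain ⟨H, hH⟩ := h1.div1 ser_P2 (fun τ => Pf_ne _) (by rw [hc]; exact one_ne_zero)
  have hH' : Ser (fun τ => (Pf (pt 2 0 τ))⁻¹) H := by
    convert hH using 1
    funext τ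
    simp
  have h2 := hH'.mul ser_P2
  have h3 : ((fun τ => (Pf (pt 2 0 τ))⁻¹) * fun τ => Pf (pt 2 0 τ)) = fun _ => (1 : ℂ) := by
    funext τ
    simp only [Pi.mul_apply]
    exact inv_mul_cancel₀ (Pf_ne _)
  rw [h3] at h2
  have h4 := h2.unique h1
  have h5 : V 2 (PowerSeries.map (Int.castRingHom ℂ) Pz) * PowerSeries.map (Int.castRingHom ℂ) Rz = 1 := by
    rw [← map_Vz, ← map_mul, Pz_Rz, map_one]
  have h6 : H = PowerSeries.map (Int.castRingHom ℂ) Rz := by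
    calc H = H * (V 2 (PowerSeries.map (Int.castRingHom ℂ) Pz) * PowerSeries.map (Int.castRingHom ℂ) Rz) := by
          rw [h5, mul_one]
      _ = (H * V 2 (PowerSeries.map (Int.castRingHom ℂ) Pz)) * PowerSeries.map (Int.castRingHom ℂ) Rz := by
          rw [mul_assoc]
      _ = _ := by rw [h4, map_one, one_mul]
  rw [h6] at hH'
  exact hH'

private theorem ser_xq : Ser xq PowerSeries.X := by
  intro τ
  have h : (fun n : ℕ => coeff n (PowerSeries.X : ℂ⟦X⟧) * xq τ ^ n) =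
      fun n => if n = 1 then xq τ else 0 := by
    funext n
    rw [coeff_X]
    split_ifs with h1
    · rw [h1]; simp
    · simp
  rw [h]
  exact hasSum_ite_eq 1 (xq τ)

theorem ser_X : Ser Xf (PowerSeries.map (Int.castRingHom ℂ) Xz) := by
  have h := (ser_P.pow 8).mul (ser_R.pow 4)
  have h1 : (Pf ^ 8 * (fun τ => (Pf (pt 2 0 τ))⁻¹) ^ 4) = Xf := by
    funext τ
    rw [Xf_eq]
    rfl
  rw [h1, ← map_pow, ← map_pow, ← map_mul] at h
  exact h

theorem ser_Y : Ser Yf Yq := by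
  have h := ((ser_xq.mul (ser_P4.pow 8)).mul (ser_R.pow 4)).smul 8
  have h1 : (8 : ℂ) • (xq * (fun τ => Pf (pt 4 0 τ)) ^ 8 * (fun τ => (Pf (pt 2 0 τ))⁻¹) ^ 4) = Yf := by
    funext τ
    rw [Yf_eq]
    rfl
  rw [h1] at h
  convert h using 1
  rw [Yq, Kz, ← map_Vz, map_mul, map_mul, map_mul, map_pow, map_pow, PowerSeries.map_X, map_ofNat]
  rw [← (map_ofNat PowerSeries.C 8 : PowerSeries.C (8 : ℂ) = 8), ← PowerSeries.smul_eq_C_mul]

theorem ser_A : Ser Af Aq := by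
  have h := ser_X.add ser_Y
  rw [Yq, ← map_add] at h
  exact h

private theorem sl_S (f : ℍ → ℂ) (τ : ℍ) :
    (f ∣[(2 : ℤ)] ModularGroup.S) τ = f (ModularGroup.S • τ) * ((τ : ℂ) ^ 2)⁻¹ := by
  rw [SL_slash_apply]
  congr 1
  have : denom (ModularGroup.S : SL(2, ℤ)) τ = τ := by
    rw [ModularGroup.denom_apply]
    simp [ModularGroup.S]
  rw [this, zpow_neg]
  norm_cast

private theorem coe_S (τ : ℍ) : ((ModularGroup.S • τ : ℍ) : ℂ) = -1 / (τ : ℂ) := by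
  rw [modular_S_smul]
  have : (τ : ℂ) ≠ 0 := τ.ne_zero
  simp only
  field_simp

private theorem sqrt_sq' {z : ℂ} (hz : z ≠ 0) : Complex.sqrt z ^ 2 = z := by
  rw [_root_.sqrt_eq_exp hz, ← Complex.exp_nat_mul]
  have : ((2 : ℕ) : ℂ) * (Complex.log z / 2) = Complex.log z := by
    push_cast
    ring
  rw [this, Complex.exp_log hz]

private theorem eta_inv (z : ℂ) (hz : 0 < z.im) : ModularForm.eta (-1 / z) ^ 4 = - z ^ 2 * ModularForm.eta z ^ 4 := by
  have hz0 : z ≠ 0 := by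
    rintro rfl
    simp at hz
  have h := eta_comp_eq_csqrt_I_inv (x := z) hz
  have h' : ModularForm.eta (-1 / z) = (Complex.sqrt Complex.I)⁻¹ * (Complex.sqrt z * ModularForm.eta z) := by
    simpa using h
  have hI : (Complex.sqrt Complex.I)⁻¹ ^ 4 = -1 := by
    have : Complex.sqrt Complex.I ^ 4 = -1 := by
      calc Complex.sqrt Complex.I ^ 4 = (Complex.sqrt Complex.I ^ 2) ^ 2 := by ring
        _ = -1 := by rw [sqrt_sq' Complex.I_ne_zero, Complex.I_sq]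
    rw [inv_pow, this]
    norm_num
  have hz4 : Complex.sqrt z ^ 4 = z ^ 2 := by
    calc Complex.sqrt z ^ 4 = (Complex.sqrt z ^ 2) ^ 2 := by ring
      _ = z ^ 2 := by rw [sqrt_sq' hz0]
  rw [h', mul_pow, mul_pow, hI, hz4]
  ring

theorem X_S : Xf ∣[(2 : ℤ)] ModularGroup.S = (-2 : ℂ) • Yf := by
  funext τ
  have h0 : (τ : ℂ) ≠ 0 := τ.ne_zero
  have h1 : ModularForm.eta (τ : ℂ) ≠ 0 := ModularForm.eta_ne_zero τ.im_pos
  have hi := τ.im_pos
  rw [sl_S, Pi.smul_apply, Xf, Yf, coe_S]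
  have e1 : ModularForm.eta (-1 / (τ : ℂ) / 2) ^ 8 = 16 * (τ : ℂ) ^ 4 * ModularForm.eta (2 * (τ : ℂ)) ^ 8 := by
    have h2 := eta_inv (2 * (τ : ℂ)) (by simpa using hi)
    have h3 : (-1 / (τ : ℂ) / 2) = -1 / (2 * (τ : ℂ)) := by field_simp
    rw [h3]
    calc ModularForm.eta (-1 / (2 * (τ : ℂ))) ^ 8 = (ModularForm.eta (-1 / (2 * (τ : ℂ))) ^ 4) ^ 2 := by ring
      _ = _ := by rw [h2]; ring
  rw [e1, eta_inv (τ : ℂ) hi, smul_eq_mul]
  field_simp
  ring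

theorem Y_S : Yf ∣[(2 : ℤ)] ModularGroup.S = (-(1 / 2) : ℂ) • Xf := by
  funext τ
  have h0 : (τ : ℂ) ≠ 0 := τ.ne_zero
  have h1 : ModularForm.eta (τ : ℂ) ≠ 0 := ModularForm.eta_ne_zero τ.im_pos
  have hi := τ.im_pos
  rw [sl_S, Pi.smul_apply, Xf, Yf, coe_S]
  have e1 : ModularForm.eta (2 * (-1 / (τ : ℂ))) ^ 8 = (τ : ℂ) ^ 4 / 16 * ModularForm.eta ((τ : ℂ) / 2) ^ 8 := by
    have h2 := eta_inv ((τ : ℂ) / 2) (by simpa using hi)
    have h3 : (2 * (-1 / (τ : ℂ))) = -1 / ((τ : ℂ) / 2) := by field_simp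
    rw [h3]
    calc ModularForm.eta (-1 / ((τ : ℂ) / 2)) ^ 8 = (ModularForm.eta (-1 / ((τ : ℂ) / 2)) ^ 4) ^ 2 := by ring
      _ = _ := by rw [h2]; ring
  rw [e1, eta_inv (τ : ℂ) hi, smul_eq_mul]
  field_simp
  ring

end Pool.Agent.Lib.MP_06b9d2_tl2.An
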